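import Mathlib
import Pool.Agent.Helper27_QL.StmtApp3

/-!
Module asymB.
-/

set_option autoImplicit false
open Polynomial Filter Topology

namespace QL
namespace H9

/-- growth of a polynomial along a scaled variable -/
theorem scaled (p : ℝ[X]) (k : ℕ) (hk : p.natDegree ≤ k) (ρ : ℝ) :
    Tendsto (fun t : ℝ => p.eval (ρ * t) / t ^ k) atTop (𝓝 (p.coeff k * ρ ^ k)) := by
  have h1 : ∀ t : ℝ, 0 < t → p.eval (ρ * t) / t ^ k =
      ∑ i ∈ Finset.range (k + 1), p.coeff i * ρ ^ i * (t ^ i / t ^ k) := by
    intro t _
    rw [Polynomial.eval_eq_sum_range' (Nat.lt_succ_of_le hk), Finset.sum_div]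
    refine Finset.sum_congr rfl fun i _ => ?_
    rw [mul_pow]
    ring
  have h2 : Tendsto (fun t : ℝ => ∑ i ∈ Finset.range (k + 1), p.coeff i * ρ ^ i * (t ^ i / t ^ k))
      atTop (𝓝 (∑ i ∈ Finset.range (k + 1), p.coeff i * ρ ^ i * (if i = k then 1 else 0))) := by
    refine tendsto_finsetSum _ fun i hi => ?_
    apply Tendsto.const_mul
    have hik : i ≤ k := Nat.lt_succ_iff.1 (Finset.mem_range.1 hi)
    rcases hik.eq_or_lt with h | h
    · subst h
      rw [if_pos rfl]
      apply Tendsto.congr' _ tendsto_const_nhds
      filter_upwards [eventually_gt_atTop 0] with t ht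
      rw [div_self (by positivity)]
    · rw [if_neg h.ne]
      have h3 : Tendsto (fun t : ℝ => (t ^ (k - i))⁻¹) atTop (𝓝 0) :=
        (tendsto_pow_atTop (by omega)).inv_tendsto_atTop
      apply Tendsto.congr' _ h3
      filter_upwards [eventually_gt_atTop 0] with t ht
      have h4 : t ^ k = t ^ i * t ^ (k - i) := by
        rw [← pow_add]; congr 1; omega
      rw [h4]
      field_simp
  have h5 : ∑ i ∈ Finset.range (k + 1), p.coeff i * ρ ^ i * (if i = k then (1 : ℝ) else 0) =
      p.coeff k * ρ ^ k := by
    rw [Finset.sum_eq_single k]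
    · simp
    · intro i _ hi
      simp [hi]
    · intro h
      exact absurd (Finset.mem_range.2 (Nat.lt_succ_self k)) h
  rw [h5] at h2
  apply h2.congr'
  filter_upwards [eventually_gt_atTop 0] with t ht using (h1 t ht).symm

theorem taylor_sum (p : ℝ[X]) (t s : ℝ) :
    p.eval (t + s) = ∑ j ∈ Finset.range (p.natDegree + 1), (hasseDeriv j p).eval t * s ^ j := by
  have h1 := Polynomial.taylor_eval t p s
  rw [add_comm s t] at h1
  rw [← h1, Polynomial.eval_eq_sum_range, Polynomial.natDegree_taylor]
  refine Finset.sum_congr rfl fun j _ => ?_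
  rw [Polynomial.taylor_coeff]

theorem ratio_zero {P Q : ℝ[X]} (hQ : Q ≠ 0) (h : P.natDegree < Q.natDegree) :
    Tendsto (fun t => P.eval t / Q.eval t) atTop (𝓝 0) := by
  apply Polynomial.div_tendsto_atTop_zero_of_degree_lt
  rw [Polynomial.degree_eq_natDegree hQ]
  exact lt_of_le_of_lt Polynomial.degree_le_natDegree (by exact_mod_cast h)

theorem ev_ne {Q : ℝ[X]} (hQ : Q ≠ 0) : ∀ᶠ t in atTop, Q.eval t ≠ 0 := by
  have h1 : Q.roots.toFinset.finite_toSet.toFinset = Q.roots.toFinset := by simp
  have h2 : ∀ᶠ t in atTop (α := ℝ), ∀ r ∈ Q.roots.toFinset, r < t := by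
    rw [Filter.eventually_all_finset]
    intro r _
    exact eventually_gt_atTop r
  filter_upwards [h2] with t ht h0
  have h3 : t ∈ Q.roots.toFinset := by
    rw [Multiset.mem_toFinset, Polynomial.mem_roots hQ]
    exact h0
  exact lt_irrefl t (ht t h3)

end H9

open H9 in
theorem asymB : asymBStatement := by
  intro b c hc0 hne hb0 hc1
  set n := b.natDegree with hn
  set m := c.natDegree with hm
  by_cases hcase : 2 * m < n
  · left
    intro r
    -- the derivative
    have hn1 : 1 ≤ n := by omega
    have hb' : derivative b ≠ 0 := by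
      intro h
      have := Polynomial.natDegree_eq_zero_of_derivative_eq_zero h
      omega
    have hdb : (derivative b).natDegree = n - 1 := by
      have h := Polynomial.natDegree_hasseDeriv b 1
      rw [Polynomial.hasseDeriv_one] at h
      exact h
    set s : ℝ → ℝ := fun t => r * c.eval t ^ 2 / (derivative b).eval t with hs
    refine ⟨s, ?_, ?_⟩
    · -- the terms of the Taylor expansion
      have hterm : ∀ j ∈ Finset.range (n + 1), Tendsto (fun t => if j = 0 then 0 else
          (hasseDeriv j b).eval t * s t ^ j / c.eval t ^ 2) atTop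
          (𝓝 (if j = 1 then r else 0)) := by
        intro j hj
        rw [Finset.mem_range] at hj
        rcases Nat.eq_zero_or_pos j with h0 | h0
        · subst h0; simp
        rcases Nat.eq_or_lt_of_le (Nat.succ_le_of_lt h0) with h1 | h1
        · have h1' : j = 1 := by omega
          subst h1'
          simp only [one_ne_zero, if_false, if_true, pow_one]
          apply Tendsto.congr' _ tendsto_const_nhds
          filter_upwards [ev_ne hb', ev_ne hc0] with t ht1 ht2
          rw [hs, Polynomial.hasseDeriv_one]
          field_simp
        · have hj1 : j ≠ 1 := by omega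
          have hj0 : j ≠ 0 := by omega
          simp only [hj0, hj1, if_false]
          have hQ : (derivative b) ^ j ≠ 0 := pow_ne_zero _ hb'
          have h2 := ratio_zero (P := hasseDeriv j b * C (r ^ j) * c ^ (2 * (j - 1)))
            (Q := (derivative b) ^ j) hQ (by
              rw [Polynomial.natDegree_pow, hdb]
              have e1 : (hasseDeriv j b * C (r ^ j) * c ^ (2 * (j - 1))).natDegree ≤
                  (n - j) + 2 * (j - 1) * m := by
                refine (Polynomial.natDegree_mul_le).trans ?_
                refine Nat.add_le_add ((Polynomial.natDegree_mul_C_le _ _).trans ?_) ?_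
                · exact Polynomial.natDegree_hasseDeriv_le b j
                · exact (Polynomial.natDegree_pow_le)
              refine lt_of_le_of_lt e1 ?_
              obtain ⟨i, rfl⟩ : ∃ i, j = i + 2 := ⟨j - 2, by omega⟩
              obtain ⟨q, hq⟩ : ∃ q, n = q + (i + 2) := ⟨n - (i + 2), by omega⟩
              have e2 : n - (i + 2) = q := by omega
              have e3 : n - 1 = q + i + 1 := by omega
              have e4 : i + 2 - 1 = i + 1 := by omega
              rw [e2, e3, e4]
              have e5 : 2 * m ≤ q + i + 1 := by omega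
              nlinarith)
          refine h2.congr' ?_
          filter_upwards [ev_ne hb', ev_ne hc0] with t ht1 ht2
          simp only [Polynomial.eval_mul, Polynomial.eval_pow, Polynomial.eval_C, hs]
          have e6 : c.eval t ^ (2 * (j - 1)) * c.eval t ^ 2 = (c.eval t ^ 2) ^ j := by
            rw [← pow_mul, ← pow_add]
            congr 1
            omega
          rw [div_pow, mul_pow, ← e6]
          field_simp
      have hsum := tendsto_finsetSum _ hterm
      have hlim : ∑ j ∈ Finset.range (n + 1), (if j = 1 then r else 0) = r := by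
        rw [Finset.sum_ite_eq' (Finset.range (n + 1)) 1 (fun _ => r),
          if_pos (Finset.mem_range.2 (by omega))]
      rw [hlim] at hsum
      refine hsum.congr' ?_
      filter_upwards [ev_ne hc0] with t ht2
      rw [taylor_sum b t (s t), ← hn, Finset.sum_range_succ', Finset.sum_range_succ']
      simp only [Polynomial.hasseDeriv_zero, LinearMap.id_apply, pow_zero, mul_one,
        add_sub_cancel_right, if_true, add_zero, Nat.add_eq_zero_iff, one_ne_zero, and_false,
        if_false]
      rw [Finset.sum_div]
    · have hterm : ∀ j ∈ Finset.range (m + 1), Tendsto (fun t =>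
          (hasseDeriv j c).eval t * s t ^ j / c.eval t) atTop
          (𝓝 (if j = 0 then 1 else 0)) := by
        intro j hj
        rw [Finset.mem_range] at hj
        rcases Nat.eq_zero_or_pos j with h0 | h0
        · subst h0
          simp only [if_true, Polynomial.hasseDeriv_zero, LinearMap.id_apply, pow_zero, mul_one]
          apply Tendsto.congr' _ tendsto_const_nhds
          filter_upwards [ev_ne hc0] with t ht2
          rw [div_self ht2]
        · have hj0 : j ≠ 0 := by omega
          simp only [hj0, if_false]
          have hQ : (derivative b) ^ j ≠ 0 := pow_ne_zero _ hb'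
          have h2 := ratio_zero (P := hasseDeriv j c * C (r ^ j) * c ^ (2 * j - 1))
            (Q := (derivative b) ^ j) hQ (by
              rw [Polynomial.natDegree_pow, hdb]
              have e1 : (hasseDeriv j c * C (r ^ j) * c ^ (2 * j - 1)).natDegree ≤
                  (m - j) + (2 * j - 1) * m := by
                refine (Polynomial.natDegree_mul_le).trans ?_
                refine Nat.add_le_add ((Polynomial.natDegree_mul_C_le _ _).trans ?_) ?_
                · exact Polynomial.natDegree_hasseDeriv_le c j
                · exact (Polynomial.natDegree_pow_le)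
              refine lt_of_le_of_lt e1 ?_
              obtain ⟨i, rfl⟩ : ∃ i, j = i + 1 := ⟨j - 1, by omega⟩
              obtain ⟨q, hq⟩ : ∃ q, m = q + (i + 1) := ⟨m - (i + 1), by omega⟩
              have e2 : m - (i + 1) = q := by omega
              have e3 : 2 * (i + 1) - 1 = 2 * i + 1 := by omega
              rw [e2, e3]
              have e5 : 2 * m ≤ n - 1 := by omega
              have e6 : (i + 1) * (2 * m) ≤ (i + 1) * (n - 1) := Nat.mul_le_mul_left _ e5
              have e7 : q + (2 * i + 1) * m < (i + 1) * (2 * m) := by
                have : q < m := by omega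
                nlinarith
              omega)
          refine h2.congr' ?_
          filter_upwards [ev_ne hb', ev_ne hc0] with t ht1 ht2
          simp only [Polynomial.eval_mul, Polynomial.eval_pow, Polynomial.eval_C, hs]
          have e6 : c.eval t ^ (2 * j - 1) * c.eval t = (c.eval t ^ 2) ^ j := by
            rw [← pow_mul, ← pow_succ]
            congr 1
            omega
          rw [div_pow, mul_pow, ← e6]
          field_simp
      have hsum := tendsto_finsetSum _ hterm
      have hlim : ∑ j ∈ Finset.range (m + 1), (if j = 0 then (1 : ℝ) else 0) = 1 := by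
        rw [Finset.sum_ite_eq' (Finset.range (m + 1)) 0 (fun _ => (1 : ℝ)),
          if_pos (Finset.mem_range.2 (by omega))]
      rw [hlim] at hsum
      refine hsum.congr' ?_
      filter_upwards [ev_ne hc0] with t ht2
      rw [taylor_sum c t (s t), ← hm, Finset.sum_div]
  · right
    push Not at hcase
    have hm1 : 1 ≤ m := by
      by_contra h
      have hm0 : m = 0 := by omega
      have hn0 : n = 0 := by omega
      rw [hm] at hm0
      rw [hn] at hn0
      rw [Polynomial.eq_C_of_natDegree_eq_zero hm0, Polynomial.eval_C] at hc1
      rw [Polynomial.eq_C_of_natDegree_eq_zero hn0, Polynomial.eval_C] at hb0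
      rcases hne with h | h
      · apply h
        rw [Polynomial.eq_C_of_natDegree_eq_zero hn0, hb0, Polynomial.C_0]
      · apply h
        rw [Polynomial.eq_C_of_natDegree_eq_zero hm0, hc1, Polynomial.C_1]
    set cm := c.coeff m with hcm
    have hcm0 : cm ≠ 0 := by
      rw [hcm, hm]
      exact Polynomial.leadingCoeff_ne_zero.2 hc0
    refine ⟨b.coeff (2 * m) / cm ^ 2, fun l hl => ?_⟩
    set ρ : ℝ := l ^ ((m : ℝ)⁻¹) with hρ
    have hρ0 : 0 < ρ := Real.rpow_pos_of_pos hl _
    have hρm : ρ ^ m = l := by
      rw [hρ, ← Real.rpow_natCast, ← Real.rpow_mul hl.le, inv_mul_cancel₀ (by positivity),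
        Real.rpow_one]
    refine ⟨fun t => (ρ - 1) * t, ?_, ?_⟩
    · have h1 := scaled b (2 * m) hcase ρ
      have h2 := scaled b (2 * m) hcase 1
      have h3 := scaled c m le_rfl 1
      simp only [one_mul, one_pow, mul_one] at h2 h3
      have h4 := (h1.sub h2).div (h3.pow 2) (pow_ne_zero 2 hcm0)
      have h5 : (b.coeff (2 * m) * ρ ^ (2 * m) - b.coeff (2 * m)) / c.coeff m ^ 2 =
          b.coeff (2 * m) / cm ^ 2 * (l ^ 2 - 1) := by
        rw [mul_comm 2 m, pow_mul, hρm, ← hcm]
        ring
      rw [h5] at h4
      refine h4.congr' ?_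
      filter_upwards [eventually_gt_atTop 0, ev_ne hc0] with t ht ht2
      have e1 : t + (ρ - 1) * t = ρ * t := by ring
      rw [e1]
      simp only [Pi.sub_apply, Pi.div_apply, Pi.pow_apply]
      rw [mul_comm 2 m, pow_mul]
      field_simp
    · have h1 := scaled c m le_rfl ρ
      have h3 := scaled c m le_rfl 1
      simp only [one_mul, one_pow, mul_one] at h3
      have h4 := h1.div h3 hcm0
      have h5 : c.coeff m * ρ ^ m / c.coeff m = l := by
        rw [hρm, ← hcm, mul_comm, mul_div_assoc, div_self hcm0, mul_one]
      rw [h5] at h4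
      refine h4.congr' ?_
      filter_upwards [eventually_gt_atTop 0, ev_ne hc0] with t ht ht2
      have e1 : t + (ρ - 1) * t = ρ * t := by ring
      rw [e1]
      simp only [Pi.div_apply]
      field_simp

end QL
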