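import Mathlib
import Pool.Agent.Helper27_QL.Stmt

/-!
Modules TENS: basic facts on the action on tensors.
-/

set_option autoImplicit false
open Matrix Polynomial MeasureTheory Set Filter Topology

namespace QL
namespace H9

theorem tens_mul' {ι : Type} [Fintype ι] [DecidableEq ι] (k : ℕ) (A B : Matrix ι ι ℝ) :
    tens k (A * B) = tens k A * tens k B := by
  ext i j
  simp only [tens, Matrix.mul_apply]
  rw [Finset.prod_univ_sum]
  rw [Fintype.piFinset_univ]
  exact Finset.sum_congr rfl fun f _ => Finset.prod_mul_distrib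

theorem tens_one' {ι : Type} [DecidableEq ι] (k : ℕ) : tens k (1 : Matrix ι ι ℝ) = 1 := by
  ext i j
  simp only [tens, Matrix.one_apply]
  by_cases h : i = j
  · subst h; simp
  · rw [if_neg h]
    obtain ⟨a, ha⟩ := Function.ne_iff.1 h
    exact Finset.prod_eq_zero (Finset.mem_univ a) (if_neg ha)

variable {ι : Type} [Fintype ι] [DecidableEq ι]

/-- the matrix acting -/
noncomputable def rmat (b : Bool) (g : Matrix ι ι ℝ) : Matrix ι ι ℝ := if b then g else (g⁻¹)ᵀ

theorem ract_eq (b : Bool) (k : ℕ) (g : Matrix ι ι ℝ) (w : (Fin k → ι) → ℝ) :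
    ract b k g w = tens k (rmat b g) *ᵥ w := rfl

theorem rmat_mul (b : Bool) (g h : Matrix ι ι ℝ) :
    rmat b (g * h) = rmat b g * rmat b h := by
  unfold rmat
  cases b
  · simp only [Bool.false_eq_true, if_false]
    rw [Matrix.mul_inv_rev, Matrix.transpose_mul]
  · simp

theorem ract_mul' (b : Bool) (k : ℕ) (g h : Matrix ι ι ℝ) (hg : g.det = 1) (hh : h.det = 1)
    (w : (Fin k → ι) → ℝ) : ract b k (g * h) w = ract b k g (ract b k h w) := by
  rw [ract_eq, ract_eq, ract_eq, rmat_mul b g h, tens_mul', Matrix.mulVec_mulVec]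

theorem ract_one' (b : Bool) (k : ℕ) (w : (Fin k → ι) → ℝ) :
    ract b k (1 : Matrix ι ι ℝ) w = w := by
  rw [ract_eq]
  have : rmat b (1 : Matrix ι ι ℝ) = 1 := by unfold rmat; cases b <;> simp
  rw [this, tens_one', Matrix.one_mulVec]

theorem inv_eq_adj {g : Matrix ι ι ℝ} (hg : g.det = 1) : g⁻¹ = g.adjugate := by
  rw [Matrix.inv_def, hg]; simp

theorem det_inv_one {g : Matrix ι ι ℝ} (hg : g.det = 1) : (g⁻¹).det = 1 := by
  rw [Matrix.det_nonsing_inv, hg]; simp

theorem mul_inv_one {g : Matrix ι ι ℝ} (hg : g.det = 1) : g * g⁻¹ = 1 :=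
  Matrix.mul_nonsing_inv g (by rw [hg]; exact isUnit_one)

theorem inv_mul_one {g : Matrix ι ι ℝ} (hg : g.det = 1) : g⁻¹ * g = 1 :=
  Matrix.nonsing_inv_mul g (by rw [hg]; exact isUnit_one)

theorem ract_inv_ract (b : Bool) (k : ℕ) {g : Matrix ι ι ℝ} (hg : g.det = 1)
    (w : (Fin k → ι) → ℝ) : ract b k g⁻¹ (ract b k g w) = w := by
  rw [← ract_mul' b k _ _ (det_inv_one hg) hg, inv_mul_one hg, ract_one']

theorem ract_ract_inv (b : Bool) (k : ℕ) {g : Matrix ι ι ℝ} (hg : g.det = 1)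
    (w : (Fin k → ι) → ℝ) : ract b k g (ract b k g⁻¹ w) = w := by
  rw [← ract_mul' b k _ _ hg (det_inv_one hg), mul_inv_one hg, ract_one']

/-- integrality -/
theorem adj_int {γ : Matrix ι ι ℝ} (h : ∀ i j, ∃ m : ℤ, γ i j = m) :
    ∀ i j, ∃ m : ℤ, γ.adjugate i j = m := by
  choose M hM using h
  have : γ = (Matrix.of M).map (Int.castRingHom ℝ) := by
    ext i j
    simp [hM]
  intro i j
  refine ⟨(Matrix.of M).adjugate i j, ?_⟩
  rw [this]
  have h2 := RingHom.map_adjugate (Int.castRingHom ℝ) (Matrix.of M)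
  have h3 := congrFun (congrFun h2 i) j
  simp only [RingHom.mapMatrix_apply] at h3
  rw [← h3]
  simp

theorem gam_inv' {γ : Matrix ι ι ℝ} (h : γ ∈ Gam ι) : γ⁻¹ ∈ Gam ι := by
  refine ⟨det_inv_one h.1, ?_⟩
  rw [inv_eq_adj h.1]
  exact adj_int h.2

theorem gam_one : (1 : Matrix ι ι ℝ) ∈ Gam ι := by
  refine ⟨Matrix.det_one, fun i j => ⟨if i = j then 1 else 0, ?_⟩⟩
  rw [Matrix.one_apply]
  split <;> simp

theorem gam_mul' {γ γ' : Matrix ι ι ℝ} (h : γ ∈ Gam ι) (h' : γ' ∈ Gam ι) : γ * γ' ∈ Gam ι := by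
  refine ⟨by rw [Matrix.det_mul, h.1, h'.1, one_mul], fun i j => ?_⟩
  choose M hM using h.2
  choose M' hM' using h'.2
  refine ⟨∑ l, M i l * M' l j, ?_⟩
  rw [Matrix.mul_apply]
  push_cast
  exact Finset.sum_congr rfl fun l _ => by rw [hM, hM']

theorem rmat_int (b : Bool) {γ : Matrix ι ι ℝ} (hγ : γ ∈ Gam ι) :
    ∀ i j, ∃ m : ℤ, rmat b γ i j = m := by
  unfold rmat
  cases b
  · intro i j
    simp only [Bool.false_eq_true, if_false, Matrix.transpose_apply]
    exact (gam_inv' hγ).2 j i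
  · exact hγ.2

omit [Fintype ι] [DecidableEq ι] in
theorem tens_int {k : ℕ} {A : Matrix ι ι ℝ} (h : ∀ i j, ∃ m : ℤ, A i j = m) :
    ∀ i j, ∃ m : ℤ, tens k A i j = m := by
  choose M hM using h
  intro i j
  refine ⟨∏ a, M (i a) (j a), ?_⟩
  simp [tens, hM]

theorem ract_gam' (b : Bool) (k : ℕ) (γ : Matrix ι ι ℝ) (hγ : γ ∈ Gam ι)
    (w : (Fin k → ι) → ℤ) : ∃ w' : (Fin k → ι) → ℤ, ract b k γ (iv w) = iv w' := by
  choose M hM using tens_int (k := k) (rmat_int b hγ)
  refine ⟨fun i => ∑ j, M i j * w j, ?_⟩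
  funext i
  rw [ract_eq]
  simp only [Matrix.mulVec, dotProduct, iv]
  push_cast
  exact Finset.sum_congr rfl fun j _ => by rw [hM]

/-- linearity -/
noncomputable def ractL (b : Bool) (k : ℕ) (g : Matrix ι ι ℝ) :
    ((Fin k → ι) → ℝ) →ₗ[ℝ] ((Fin k → ι) → ℝ) := (tens k (rmat b g)).mulVecLin

theorem ractL_apply (b : Bool) (k : ℕ) (g : Matrix ι ι ℝ) (w : (Fin k → ι) → ℝ) :
    ractL b k g w = ract b k g w := rfl

theorem ract_add (b : Bool) (k : ℕ) (g : Matrix ι ι ℝ) (w w' : (Fin k → ι) → ℝ) :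
    ract b k g (w + w') = ract b k g w + ract b k g w' := Matrix.mulVec_add _ _ _

theorem ract_sub (b : Bool) (k : ℕ) (g : Matrix ι ι ℝ) (w w' : (Fin k → ι) → ℝ) :
    ract b k g (w - w') = ract b k g w - ract b k g w' := Matrix.mulVec_sub _ _ _

theorem ract_smul (b : Bool) (k : ℕ) (g : Matrix ι ι ℝ) (c : ℝ) (w : (Fin k → ι) → ℝ) :
    ract b k g (c • w) = c • ract b k g w := Matrix.mulVec_smul _ _ _

/-- continuity -/
theorem rmat_cont (b : Bool) : ContinuousOn (fun g : Matrix ι ι ℝ => rmat b g) {g | g.det = 1} := by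
  unfold rmat
  cases b
  · simp only [Bool.false_eq_true, if_false]
    have h : ContinuousOn (fun g : Matrix ι ι ℝ => (g.adjugate)ᵀ) {g | g.det = 1} := by
      apply Continuous.continuousOn
      fun_prop
    exact h.congr fun g hg => by
      rw [inv_eq_adj hg]
  · simp only [if_true]
    exact continuousOn_id

omit [Fintype ι] [DecidableEq ι] in
theorem tens_cont (k : ℕ) : Continuous (fun A : Matrix ι ι ℝ => tens k A) := by
  unfold tens
  refine continuous_pi fun i => continuous_pi fun j => ?_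
  exact continuous_finsetProd _ fun a _ => (continuous_apply_apply (i a) (j a))

theorem ract_cont' (b : Bool) (k : ℕ) :
    ContinuousOn (fun y : Matrix ι ι ℝ × ((Fin k → ι) → ℝ) => ract b k y.1 y.2)
      {y | y.1.det = 1} := by
  have h1 : ContinuousOn (fun y : Matrix ι ι ℝ × ((Fin k → ι) → ℝ) => tens k (rmat b y.1))
      {y | y.1.det = 1} :=
    (tens_cont k).comp_continuousOn ((rmat_cont b).comp continuous_fst.continuousOn
      fun y hy => hy)
  have h2 : Continuous (fun p : Matrix (Fin k → ι) (Fin k → ι) ℝ × ((Fin k → ι) → ℝ) =>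
      p.1 *ᵥ p.2) := continuous_fst.matrix_mulVec continuous_snd
  exact h2.comp_continuousOn (h1.prodMk continuous_snd.continuousOn)

/-- for a fixed tensor -/
theorem ract_contL (b : Bool) (k : ℕ) (v : (Fin k → ι) → ℝ) :
    ContinuousOn (fun g : Matrix ι ι ℝ => ract b k g v) {g | g.det = 1} :=
  (ract_cont' b k).comp (f := fun g : Matrix ι ι ℝ => (g, v)) (by fun_prop) fun g hg => hg

theorem inv_contOn : ContinuousOn (fun g : Matrix ι ι ℝ => g⁻¹) {g | g.det = 1} := by
  have h : ContinuousOn (fun g : Matrix ι ι ℝ => g.adjugate) {g | g.det = 1} := by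
    apply Continuous.continuousOn
    fun_prop
  exact h.congr fun g hg => inv_eq_adj hg

theorem ract_contInv (b : Bool) (k : ℕ) (v : (Fin k → ι) → ℝ) :
    ContinuousOn (fun g : Matrix ι ι ℝ => ract b k g⁻¹ v) {g | g.det = 1} :=
  (ract_contL b k v).comp inv_contOn fun _ hg => det_inv_one hg

/-- bounds for integer tensors -/
theorem fin_bdd' (b : Bool) (k : ℕ) (C : Set (Matrix ι ι ℝ)) (hC : IsCompact C)
    (hdet : ∀ x ∈ C, x.det = 1) (R : ℝ) :
    {w : (Fin k → ι) → ℤ | ∃ x ∈ C, ∀ c, |ract b k x (iv w) c| ≤ R}.Finite := by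
  -- the set of vectors `x⁻¹ v` is bounded
  set K : Set ((Fin k → ι) → ℝ) := (fun p : Matrix ι ι ℝ × ((Fin k → ι) → ℝ) =>
    ract b k p.1⁻¹ p.2) '' (C ×ˢ Metric.closedBall 0 (max R 0)) with hK
  have hKc : IsCompact K := by
    apply (hC.prod (isCompact_closedBall 0 (max R 0))).image_of_continuousOn
    have h1 : ContinuousOn (fun p : Matrix ι ι ℝ × ((Fin k → ι) → ℝ) => (p.1⁻¹, p.2))
        (C ×ˢ Metric.closedBall 0 (max R 0)) := by
      refine ContinuousOn.prodMk ?_ continuous_snd.continuousOn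
      exact inv_contOn.comp continuous_fst.continuousOn fun p hp => hdet p.1 hp.1
    exact ContinuousOn.comp (g := fun y : Matrix ι ι ℝ × ((Fin k → ι) → ℝ) => ract b k y.1 y.2)
      (f := fun p : Matrix ι ι ℝ × ((Fin k → ι) → ℝ) => (p.1⁻¹, p.2))
      (t := {y | y.1.det = 1}) (ract_cont' b k) h1 fun p hp => det_inv_one (hdet p.1 hp.1)
  obtain ⟨B, hB⟩ := hKc.isBounded.exists_norm_le
  have hsub : {w : (Fin k → ι) → ℤ | ∃ x ∈ C, ∀ c, |ract b k x (iv w) c| ≤ R} ⊆
      Set.pi Set.univ fun _ => Set.Icc (-⌈B⌉) ⌈B⌉ := by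
    rintro w ⟨x, hx, hw⟩ i -
    have h1 : iv w ∈ K := by
      refine ⟨(x, ract b k x (iv w)), ⟨hx, ?_⟩, ract_inv_ract b k (hdet x hx) _⟩
      rw [mem_closedBall_zero_iff, pi_norm_le_iff_of_nonneg (le_max_right _ _)]
      intro c
      rw [Real.norm_eq_abs]
      exact (hw c).trans (le_max_left _ _)
    have h2 := hB _ h1
    have h3 : |(w i : ℝ)| ≤ B := (norm_le_pi_norm (iv w) i).trans h2
    have h4 : |(w i : ℝ)| ≤ ⌈B⌉ := h3.trans (Int.le_ceil B)
    have h5 : |w i| ≤ ⌈B⌉ := by exact_mod_cast h4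
    exact ⟨(abs_le.1 h5).1, (abs_le.1 h5).2⟩
  exact (Set.Finite.pi' fun _ => Set.finite_Icc _ _).subset (by
    intro w hw i
    exact hsub hw i (Set.mem_univ i))

/-! ### Polynomial paths -/

theorem natDegree_det_le' {P : Matrix ι ι ℝ[X]} {D : ℕ} (h : ∀ i j, (P i j).natDegree ≤ D) :
    P.det.natDegree ≤ Fintype.card ι * D := by
  rw [Matrix.det_apply]
  refine Polynomial.natDegree_sum_le_of_forall_le _ _ fun σ _ => ?_
  refine (Polynomial.natDegree_smul_le _ _).trans ?_
  refine (Polynomial.natDegree_prod_le _ _).trans ?_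
  refine (Finset.sum_le_sum fun i _ => h (σ i) i).trans ?_
  rw [Finset.sum_const, Finset.card_univ, smul_eq_mul]

theorem natDegree_adj_le {P : Matrix ι ι ℝ[X]} {D : ℕ} (h : ∀ i j, (P i j).natDegree ≤ D)
    (i j : ι) : (P.adjugate i j).natDegree ≤ Fintype.card ι * D := by
  rw [Matrix.adjugate_apply]
  apply natDegree_det_le'
  intro a c
  rw [Matrix.updateRow_apply]
  split
  · rw [Pi.single_apply]
    split <;> simp
  · exact h a c

theorem ev_mul (P Q : Matrix ι ι ℝ[X]) (τ : ℝ) : ev (P * Q) τ = ev P τ * ev Q τ := by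
  unfold ev
  ext i j
  simp [Matrix.mul_apply, Polynomial.eval_finsetSum]

theorem ev_adj (P : Matrix ι ι ℝ[X]) (τ : ℝ) : ev P.adjugate τ = (ev P τ).adjugate := by
  have h2 := RingHom.map_adjugate (Polynomial.evalRingHom τ) P
  simpa [ev] using h2

/-- the entries of the acting matrix are polynomials -/
theorem rmat_poly (b : Bool) {P : Matrix ι ι ℝ[X]} {D : ℕ} (h : ∀ i j, (P i j).natDegree ≤ D)
    (hdet : ∀ τ, (ev P τ).det = 1) :
    ∃ Q : Matrix ι ι ℝ[X], (∀ i j, (Q i j).natDegree ≤ Fintype.card ι * D + D) ∧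
      ∀ τ, rmat b (ev P τ) = ev Q τ := by
  cases b
  · refine ⟨(P.adjugate)ᵀ, fun i j => ?_, fun τ => ?_⟩
    · exact (natDegree_adj_le h j i).trans (Nat.le_add_right _ _)
    · unfold rmat
      simp only [Bool.false_eq_true, if_false]
      rw [inv_eq_adj (hdet τ), ← ev_adj]
      rfl
  · exact ⟨P, fun i j => (h i j).trans (Nat.le_add_left _ _), fun τ => by simp [rmat]⟩

theorem ract_poly' (b : Bool) (k D : ℕ) :
    ∀ P : Matrix ι ι ℝ[X], (∀ i j, (P i j).natDegree ≤ D) → (∀ τ, (ev P τ).det = 1) →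
    ∀ w : (Fin k → ι) → ℝ, ∀ c, ∃ p : ℝ[X], p.natDegree ≤ k * (Fintype.card ι * D + D) ∧
      ∀ τ, ract b k (ev P τ) w c = p.eval τ := by
  intro P hP hdet w c
  obtain ⟨Q, hQ, hQev⟩ := rmat_poly b hP hdet
  refine ⟨∑ j, (∏ a, Q (c a) (j a)) * Polynomial.C (w j), ?_, fun τ => ?_⟩
  · refine Polynomial.natDegree_sum_le_of_forall_le _ _ fun j _ => ?_
    refine (Polynomial.natDegree_mul_C_le _ _).trans ?_
    refine (Polynomial.natDegree_prod_le _ _).trans ?_
    refine (Finset.sum_le_sum fun a _ => hQ (c a) (j a)).trans ?_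
    rw [Finset.sum_const, Finset.card_univ, smul_eq_mul, Fintype.card_fin]
  · rw [ract_eq, hQev τ]
    simp only [Matrix.mulVec, dotProduct, tens, ev, Matrix.map_apply, Polynomial.eval_finsetSum,
      Polynomial.eval_mul, Polynomial.eval_prod, Polynomial.eval_C]

end H9

theorem tens_mul : tens_mulStatement := fun k A B => H9.tens_mul' k A B
theorem tens_one : tens_oneStatement := fun k => H9.tens_one' k
theorem ract_mul : ract_mulStatement := fun b k g h hg hh w => H9.ract_mul' b k g h hg hh w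
theorem ract_one : ract_oneStatement := fun b k w => H9.ract_one' b k w
theorem ract_gam : ract_gamStatement := fun b k γ hγ w => H9.ract_gam' b k γ hγ w
theorem fin_bdd : fin_bddStatement := fun b k C hC hdet R => H9.fin_bdd' b k C hC hdet R
theorem ract_cont : ract_contStatement := fun b k => H9.ract_cont' b k
theorem ract_poly : ract_polyStatement := fun b k D => ⟨_, H9.ract_poly' b k D⟩

end QL
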