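import Mathlib
import Pool.Agent.Helper9_QL.Tens

/-!
Modules uniq_nbhd and tube_time.
-/

set_option autoImplicit false
open Matrix Polynomial MeasureTheory Set Filter Topology

namespace QL
namespace H9

variable {ι : Type} [Fintype ι] [DecidableEq ι]

/-- linear dependence of integer tensors -/
def Dep {κ : Type} (w w' : κ → ℤ) : Prop := ∃ a b : ℤ, (a ≠ 0 ∨ b ≠ 0) ∧ a • w + b • w' = 0

theorem exists_compact_nhds (x0 : Matrix ι ι ℝ) :
    ∃ K : Set (Matrix ι ι ℝ), IsCompact K ∧ K ∈ 𝓝 x0 := by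
  have : LocallyCompactSpace (Matrix ι ι ℝ) :=
    inferInstanceAs (LocallyCompactSpace (ι → ι → ℝ))
  exact exists_compact_mem_nhds x0

theorem isClosed_det : IsClosed {x : Matrix ι ι ℝ | x.det = 1} :=
  isClosed_eq (Continuous.matrix_det continuous_id) continuous_const

/-- the norm of the tube map is continuous -/
theorem pi_cont (T : Tube ι) (w : (Fin T.k → ι) → ℝ) :
    ContinuousOn (fun x : Matrix ι ι ℝ => ‖T.Pi (ract false T.k x w)‖) {x | x.det = 1} := by
  have h1 : Continuous T.Pi := LinearMap.continuous_of_finiteDimensional T.Pi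
  exact (continuous_norm.comp h1).comp_continuousOn (ract_contL false T.k w)

/-- the property proved by compact induction -/
def UN (T : Tube ι) (R : ℝ) (C : Set (Matrix ι ι ℝ)) : Prop :=
  ∃ δ0 > 0, ∃ V, IsOpen V ∧ C ⊆ V ∧ ∀ x ∈ V, x.det = 1 → ∀ w w' : (Fin T.k → ι) → ℤ,
      w ≠ 0 → w' ≠ 0 →
      (∀ c, |ract false T.k x (iv w) c| < R) → (∀ c, |T.Pi (ract false T.k x (iv w)) c| < δ0) →
      (∀ c, |ract false T.k x (iv w') c| < R) → (∀ c, |T.Pi (ract false T.k x (iv w')) c| < δ0) →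
      Dep w w'

theorem UN_local (T : Tube ι) (L : List (Tube ι)) (hU : UniqL (T :: L)) (R : ℝ)
    {x0 : Matrix ι ι ℝ} (hx0 : x0 ∈ ns L) : ∃ V ∈ 𝓝 x0, UN T R V := by
  obtain ⟨K, hK, hKn⟩ := exists_compact_nhds x0
  have hC' : IsCompact (K ∩ {x | x.det = 1}) := hK.inter_right isClosed_det
  have hfin := fin_bdd' false T.k (K ∩ {x | x.det = 1}) hC' (fun x hx => hx.2) R
  set S : Set ((Fin T.k → ι) → ℤ) := {w | ∃ x ∈ K ∩ {x : Matrix ι ι ℝ | x.det = 1},
    ∀ c, |ract false T.k x (iv w) c| ≤ R} with hS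
  -- the independent pairs
  set Pr : Set (((Fin T.k → ι) → ℤ) × ((Fin T.k → ι) → ℤ)) :=
    {p | p ∈ S ×ˢ S ∧ ¬ Dep p.1 p.2} with hPr
  have hPrfin : Pr.Finite := (hfin.prod hfin).subset fun p hp => hp.1
  set g : ((Fin T.k → ι) → ℤ) × ((Fin T.k → ι) → ℤ) → Matrix ι ι ℝ → ℝ := fun p x =>
    ‖T.Pi (ract false T.k x (iv p.1))‖ + ‖T.Pi (ract false T.k x (iv p.2))‖ with hg
  have hg0 : ∀ p ∈ Pr, 0 < g p x0 := by
    intro p hp
    by_contra hneg
    have h1 : 0 ≤ ‖T.Pi (ract false T.k x0 (iv p.1))‖ := norm_nonneg _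
    have h2 : 0 ≤ ‖T.Pi (ract false T.k x0 (iv p.2))‖ := norm_nonneg _
    have h3 : ‖T.Pi (ract false T.k x0 (iv p.1))‖ = 0 := by
      simp only [hg] at hneg
      linarith
    have h4 : ‖T.Pi (ract false T.k x0 (iv p.2))‖ = 0 := by
      simp only [hg] at hneg
      linarith
    exact hp.2 (hU.2 x0 hx0 p.1 p.2 (norm_eq_zero.1 h3) (norm_eq_zero.1 h4))
  -- a common lower bound
  obtain ⟨m, hm0, hm⟩ : ∃ m : ℝ, 0 < m ∧ ∀ p ∈ Pr, m ≤ g p x0 := by
    rcases Pr.eq_empty_or_nonempty with h | h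
    · exact ⟨1, one_pos, fun p hp => by rw [h] at hp; exact absurd hp (Set.notMem_empty p)⟩
    · obtain ⟨p0, hp0, hmin⟩ := hPrfin.exists_minimalFor (fun p => g p x0) Pr h
      refine ⟨g p0 x0, hg0 p0 hp0, fun p hp => ?_⟩
      rcases le_total (g p0 x0) (g p x0) with h | h
      · exact h
      · exact hmin hp h
  have hev : ∀ᶠ x in 𝓝[{x | x.det = 1}] x0, ∀ p ∈ Pr, m / 2 < g p x := by
    rw [Filter.eventually_all_finite hPrfin]
    intro p hp
    have hc : ContinuousWithinAt (g p) {x | x.det = 1} x0 :=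
      ((pi_cont T (iv p.1)).add (pi_cont T (iv p.2))) x0 hx0.1
    exact hc.eventually (lt_mem_nhds (by linarith [hm p hp]))
  obtain ⟨V0, hV0o, hV0x, hV0⟩ := mem_nhdsWithin.1 hev
  refine ⟨V0 ∩ interior K, Filter.inter_mem (hV0o.mem_nhds hV0x)
    (isOpen_interior.mem_nhds (mem_interior_iff_mem_nhds.2 hKn)), m / 4, by positivity,
    V0 ∩ interior K, hV0o.inter isOpen_interior, subset_rfl, ?_⟩
  intro x hx hdet w w' _ _ h1 h2 h3 h4
  by_contra hdep
  have hxC : x ∈ K ∩ {x | x.det = 1} := ⟨interior_subset hx.2, hdet⟩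
  have hp : (w, w') ∈ Pr := ⟨⟨⟨x, hxC, fun c => (h1 c).le⟩, ⟨x, hxC, fun c => (h3 c).le⟩⟩, hdep⟩
  have h5 := hV0 ⟨hx.1, hdet⟩ (w, w') hp
  have h6 : ‖T.Pi (ract false T.k x (iv w))‖ ≤ m / 4 :=
    (pi_norm_le_iff_of_nonneg (by positivity)).2 fun c => (h2 c).le
  have h7 : ‖T.Pi (ract false T.k x (iv w'))‖ ≤ m / 4 :=
    (pi_norm_le_iff_of_nonneg (by positivity)).2 fun c => (h4 c).le
  simp only [hg] at h5
  linarith

end H9

open H9 in
theorem uniq_nbhd : uniq_nbhdStatement := by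
  intro ι _ _ T L hU C hC hCs R
  change UN T R C
  refine IsCompact.induction_on hC (p := UN T R) ?_ ?_ ?_ ?_
  · exact ⟨1, one_pos, ∅, isOpen_empty, subset_rfl, fun x hx => absurd hx (Set.notMem_empty x)⟩
  · rintro s t hst ⟨δ, hδ, V, hV, htV, h⟩
    exact ⟨δ, hδ, V, hV, hst.trans htV, h⟩
  · rintro s t ⟨δ, hδ, V, hV, hsV, h⟩ ⟨δ', hδ', V', hV', htV', h'⟩
    refine ⟨min δ δ', lt_min hδ hδ', V ∪ V', hV.union hV', Set.union_subset_union hsV htV', ?_⟩
    intro x hx hdet w w' hw hw' h1 h2 h3 h4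
    rcases hx with hx | hx
    · exact h x hx hdet w w' hw hw' h1 (fun c => (h2 c).trans_le (min_le_left _ _)) h3
        (fun c => (h4 c).trans_le (min_le_left _ _))
    · exact h' x hx hdet w w' hw hw' h1 (fun c => (h2 c).trans_le (min_le_right _ _)) h3
        (fun c => (h4 c).trans_le (min_le_right _ _))
  · intro x hx
    obtain ⟨V, hV, h⟩ := UN_local T L hU R (hCs hx)
    exact ⟨V, mem_nhdsWithin_of_mem_nhds hV, h⟩

namespace H9

/-! ### Primitive tensors -/

/-- primitive integer tensors -/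
def IsPrim {κ : Type} [Fintype κ] (w : κ → ℤ) : Prop := Finset.univ.gcd w = 1

theorem exists_prim {κ : Type} [Fintype κ] {w : κ → ℤ} (hw : w ≠ 0) :
    ∃ (n : ℤ) (v : κ → ℤ), 1 ≤ n ∧ IsPrim v ∧ w = n • v := by
  obtain ⟨i, hi⟩ := Function.ne_iff.1 hw
  have hne : (Finset.univ : Finset κ).Nonempty := ⟨i, Finset.mem_univ i⟩
  obtain ⟨v, hv, hv1⟩ := Finset.extract_gcd w hne
  refine ⟨Finset.univ.gcd w, v, ?_, hv1, ?_⟩
  · have h0 : Finset.univ.gcd w ≠ 0 := by
      intro h
      rw [Finset.gcd_eq_zero_iff] at h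
      exact hi (h i (Finset.mem_univ i))
    have h1 : 0 ≤ Finset.univ.gcd w := Int.nonneg_of_normalize_eq_self Finset.normalize_gcd
    omega
  · funext j
    rw [Pi.smul_apply, smul_eq_mul]
    exact hv j (Finset.mem_univ j)

theorem IsPrim.ne_zero {κ : Type} [Fintype κ] {w : κ → ℤ} (h : IsPrim w) : w ≠ 0 := by
  rintro rfl
  unfold IsPrim at h
  have : Finset.univ.gcd (0 : κ → ℤ) = 0 := Finset.gcd_eq_zero_iff.2 fun _ _ => rfl
  rw [this] at h
  exact zero_ne_one h

theorem prim_dep {κ : Type} [Fintype κ] {w w' : κ → ℤ} (h : IsPrim w) (h' : IsPrim w')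
    (hd : Dep w w') : w = w' ∨ w = -w' := by
  obtain ⟨a, b, hab, he⟩ := hd
  have ha : a ≠ 0 := by
    rintro rfl
    rw [zero_smul, zero_add, smul_eq_zero] at he
    rcases he with he | he
    · subst he
      simp at hab
    · exact h'.ne_zero he
  have e1 : Finset.univ.gcd (fun i => a * w i) = normalize a := by
    rw [Finset.gcd_mul_left, h, mul_one]
  have e2 : Finset.univ.gcd (fun i => -b * w' i) = normalize (-b) := by
    rw [Finset.gcd_mul_left, h', mul_one]
  have e3 : (fun i => a * w i) = fun i => -b * w' i := by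
    funext i
    have := congrFun he i
    simp only [Pi.add_apply, Pi.smul_apply, smul_eq_mul, Pi.zero_apply] at this
    linarith
  rw [e3, e2] at e1
  have e4 : |b| = |a| := by
    have h1 : ((normalize (-b) : ℤ)) = |-b| := (Int.abs_eq_normalize _).symm
    have h2 : ((normalize a : ℤ)) = |a| := (Int.abs_eq_normalize _).symm
    rw [h1, h2, abs_neg] at e1
    exact e1
  rcases abs_eq_abs.1 e4 with h1 | h1
  · right
    funext i
    have h2 := congrFun e3 i
    simp only [h1] at h2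
    have : a * (w i + w' i) = 0 := by linarith
    rcases mul_eq_zero.1 this with h3 | h3
    · exact absurd h3 ha
    · simp only [Pi.neg_apply]; linarith
  · left
    funext i
    have h2 := congrFun e3 i
    simp only [h1] at h2
    have : a * (w i - w' i) = 0 := by linarith
    rcases mul_eq_zero.1 this with h3 | h3
    · exact absurd h3 ha
    · linarith

theorem iv_smul {κ : Type} (n : ℤ) (w : κ → ℤ) : iv (n • w) = (n : ℝ) • iv w := by
  funext i
  simp [iv]

theorem iv_add {κ : Type} (w w' : κ → ℤ) : iv (w + w') = iv w + iv w' := by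
  funext i
  simp [iv]

theorem iv_neg {κ : Type} (w : κ → ℤ) : iv (-w) = -iv w := by
  funext i
  simp [iv]

theorem iv_inj {κ : Type} {w w' : κ → ℤ} (h : iv w = iv w') : w = w' := by
  funext i
  have := congrFun h i
  simpa [iv] using this

theorem iv_zero {κ : Type} : iv (0 : κ → ℤ) = 0 := by
  funext i
  simp [iv]

variable {ι : Type} [Fintype ι] [DecidableEq ι]

theorem ract_neg (b : Bool) (k : ℕ) (g : Matrix ι ι ℝ) (w : (Fin k → ι) → ℝ) :
    ract b k g (-w) = -ract b k g w := Matrix.mulVec_neg _ _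

end H9

open H9 in
theorem tube_time (hR : remezStatement) (hJ : Jc_specStatement) (hCB : cover_boundStatement) :
    tube_timeStatement := by
  intro ι _ _ T D R ε hR0 hε
  set D' := T.k * (Fintype.card ι * D + D) with hD'
  obtain ⟨c, hc0, hc⟩ := hR D' (ε / 2) (by positivity)
  obtain ⟨R', hR'⟩ := exists_nat_gt (max R (R / c))
  have hRR' : R < R' := (le_max_left _ _).trans_lt hR'
  have hRc : R < c * R' := by
    have := (le_max_right R (R / c)).trans_lt hR'
    rw [div_lt_iff₀ hc0] at this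
    linarith
  refine ⟨R', hRR', fun δ0 hδ0 => ⟨min c 1 * δ0, by positivity, ?_, ?_⟩⟩
  · calc min c 1 * δ0 ≤ 1 * δ0 := by gcongr; exact min_le_right _ _
      _ = δ0 := one_mul _
  intro V hV P hP hdet hH
  set δ1 := min c 1 * δ0 with hδ1
  have hδ10 : δ1 ≤ δ0 := by
    calc min c 1 * δ0 ≤ 1 * δ0 := by gcongr; exact min_le_right _ _
      _ = δ0 := one_mul _
  have hδ1c : δ1 ≤ c * δ0 := by
    rw [hδ1]
    gcongr
    exact min_le_left _ _
  set J : Set ℝ := {τ ∈ Icc (0 : ℝ) 1 | (∃ γ ∈ Gam ι, ev P τ * γ ∈ V) ∧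
      ∃ w : (Fin T.k → ι) → ℤ, w ≠ 0 ∧ (∀ c, |ract false T.k (ev P τ) (iv w) c| < R) ∧
        (∀ c, |T.Pi (ract false T.k (ev P τ) (iv w)) c| < δ1)} with hJdef
  -- polynomials
  have hpol : ∀ (w : (Fin T.k → ι) → ℝ) (i : Fin T.k → ι), ∃ p : ℝ[X], p.natDegree ≤ D' ∧
      ∀ τ, ract false T.k (ev P τ) w i = p.eval τ := ract_poly' false T.k D P hP hdet
  have hpolPi : ∀ (w : (Fin T.k → ι) → ℝ) (i : Fin T.k → ι), ∃ p : ℝ[X], p.natDegree ≤ D' ∧
      ∀ τ, T.Pi (ract false T.k (ev P τ) w) i = p.eval τ := by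
    intro w i
    choose p hp1 hp2 using hpol w
    refine ⟨∑ j, p j * Polynomial.C (T.Pi (Pi.single j 1) i), ?_, fun τ => ?_⟩
    · refine Polynomial.natDegree_sum_le_of_forall_le _ _ fun j _ => ?_
      exact (Polynomial.natDegree_mul_C_le _ _).trans (hp1 j)
    · rw [LinearMap.pi_apply_eq_sum_univ T.Pi, Finset.sum_apply, Polynomial.eval_finsetSum]
      refine Finset.sum_congr rfl fun j _ => ?_
      rw [Pi.smul_apply, smul_eq_mul, Polynomial.eval_mul, Polynomial.eval_C, hp2]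
      congr 2
      have : (fun l => if j = l then (1 : ℝ) else 0) = Pi.single j 1 := by
        funext l
        rw [Pi.single_apply]
        simp only [eq_comm]
      rw [this]
  -- primitive witnesses
  have hprim : ∀ τ ∈ J, ∃ w : (Fin T.k → ι) → ℤ, IsPrim w ∧
      (∀ c, |ract false T.k (ev P τ) (iv w) c| < R) ∧
      (∀ c, |T.Pi (ract false T.k (ev P τ) (iv w)) c| < δ1) := by
    rintro τ ⟨_, _, w, hw0, hw1, hw2⟩
    obtain ⟨n, v, hn, hv, rfl⟩ := exists_prim hw0
    have hn' : (1 : ℝ) ≤ |(n : ℝ)| := by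
      have : (1 : ℝ) ≤ n := by exact_mod_cast hn
      exact this.trans (le_abs_self _)
    refine ⟨v, hv, fun c => ?_, fun c => ?_⟩
    · have := hw1 c
      rw [iv_smul, ract_smul, Pi.smul_apply, smul_eq_mul, abs_mul] at this
      nlinarith [abs_nonneg (ract false T.k (ev P τ) (iv v) c)]
    · have := hw2 c
      rw [iv_smul, ract_smul, map_smul, Pi.smul_apply, smul_eq_mul, abs_mul] at this
      nlinarith [abs_nonneg (T.Pi (ract false T.k (ev P τ) (iv v)) c)]
  have hmain : volume J ≤ ENNReal.ofReal (2 * (ε / 2)) * ENNReal.ofReal (1 - 0) := by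
    refine hCB 0 1 J (fun τ hτ => hτ.1) (ε / 2) (by positivity) fun τ hτ => ?_
    obtain ⟨w, hwp, hw1, hw2⟩ := hprim τ hτ
    set O : Set ℝ := {σ | (∀ c, |ract false T.k (ev P σ) (iv w) c| < R') ∧
      ∀ c, |T.Pi (ract false T.k (ev P σ) (iv w)) c| < δ0} with hO
    have hOo : IsOpen O := by
      have h1 : O = (⋂ c, {σ | |ract false T.k (ev P σ) (iv w) c| < R'}) ∩
          ⋂ c, {σ | |T.Pi (ract false T.k (ev P σ) (iv w)) c| < δ0} := by
        ext σ
        simp [hO]
      rw [h1]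
      refine (isOpen_iInter_of_finite fun c => ?_).inter (isOpen_iInter_of_finite fun c => ?_)
      · obtain ⟨p, -, hp⟩ := hpol (iv w) c
        simp only [hp]
        exact isOpen_lt (p.continuous.abs) continuous_const
      · obtain ⟨p, -, hp⟩ := hpolPi (iv w) c
        simp only [hp]
        exact isOpen_lt (p.continuous.abs) continuous_const
    have hτO : τ ∈ O ∩ Icc 0 1 :=
      ⟨⟨fun c => (hw1 c).trans hRR', fun c => (hw2 c).trans_le hδ10⟩, hτ.1⟩
    obtain ⟨τ0, hτ0, hτ0'⟩ := hH w hwp.ne_zero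
    have hτ0O : τ0 ∉ O := by
      rintro ⟨h1, h2⟩
      rcases hτ0' with ⟨c, hc⟩ | ⟨c, hc⟩
      · exact absurd (h1 c) (not_lt.2 hc)
      · exact absurd (h2 c) (not_lt.2 hc)
    obtain ⟨s1, s2, s3, -, a, b, e, hab, he, -, heO, hIoo, hIcc, -⟩ :=
      hJ O hOo 0 1 τ τ0 hτO hτ0 hτ0O
    have hoc : (Jc O 0 1 τ).OrdConnected := by unfold Jc; infer_instance
    refine ⟨Jc O 0 1 τ, s1, s3, hoc, ?_⟩
    -- on the component the tensor is the same
    have hsame : ∀ σ ∈ J ∩ Jc O 0 1 τ, (∀ c, |ract false T.k (ev P σ) (iv w) c| < R) ∧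
        ∀ c, |T.Pi (ract false T.k (ev P σ) (iv w)) c| < δ1 := by
      rintro σ ⟨hσJ, hσI⟩
      obtain ⟨w', hw'p, hw'1, hw'2⟩ := hprim σ hσJ
      obtain ⟨-, ⟨γ, hγ, hγV⟩, -⟩ := hσJ
      have hσO := (s2 hσI).1
      obtain ⟨v, hv⟩ := ract_gam' false T.k γ⁻¹ (gam_inv' hγ) w
      obtain ⟨v', hv'⟩ := ract_gam' false T.k γ⁻¹ (gam_inv' hγ) w'
      have hdx : (ev P σ * γ).det = 1 := by rw [Matrix.det_mul, hdet, hγ.1, one_mul]
      have hx : ∀ (z : (Fin T.k → ι) → ℝ), ract false T.k (ev P σ * γ) (ract false T.k γ⁻¹ z) =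
          ract false T.k (ev P σ) z := by
        intro z
        rw [ract_mul' false T.k _ _ (hdet σ) hγ.1, ract_ract_inv false T.k hγ.1]
      have hv0 : v ≠ 0 := by
        rintro rfl
        rw [iv_zero] at hv
        have h1 := ract_ract_inv false T.k hγ.1 (iv w)
        rw [hv] at h1
        have h2 : ract false T.k γ (0 : (Fin T.k → ι) → ℝ) = 0 := Matrix.mulVec_zero _
        rw [h2, ← iv_zero] at h1
        exact hwp.ne_zero (iv_inj h1.symm)
      have hv'0 : v' ≠ 0 := by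
        rintro rfl
        rw [iv_zero] at hv'
        have h1 := ract_ract_inv false T.k hγ.1 (iv w')
        rw [hv'] at h1
        have h2 : ract false T.k γ (0 : (Fin T.k → ι) → ℝ) = 0 := Matrix.mulVec_zero _
        rw [h2, ← iv_zero] at h1
        exact hw'p.ne_zero (iv_inj h1.symm)
      obtain ⟨a', b', hab', he'⟩ := hV (ev P σ * γ) hγV hdx v v' hv0 hv'0
        (fun c => by rw [← hv, hx]; exact hσO.1 c) (fun c => by rw [← hv, hx]; exact hσO.2 c)
        (fun c => by rw [← hv', hx]; exact (hw'1 c).trans hRR')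
        (fun c => by rw [← hv', hx]; exact (hw'2 c).trans_le hδ10)
      have hdep : Dep w w' := by
        refine ⟨a', b', hab', iv_inj ?_⟩
        have h1 : iv (a' • v + b' • v') = 0 := by rw [he', iv_zero]
        rw [iv_add, iv_smul, iv_smul, ← hv, ← hv'] at h1
        have h2 : ract false T.k γ⁻¹ ((a' : ℝ) • iv w + (b' : ℝ) • iv w') = 0 := by
          rw [ract_add, ract_smul, ract_smul]; exact h1
        have h3 := ract_ract_inv false T.k hγ.1 ((a' : ℝ) • iv w + (b' : ℝ) • iv w')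
        rw [h2] at h3
        have h4 : ract false T.k γ (0 : (Fin T.k → ι) → ℝ) = 0 := Matrix.mulVec_zero _
        rw [h4] at h3
        rw [iv_add, iv_smul, iv_smul, iv_zero]
        exact h3.symm
      rcases prim_dep hwp hw'p hdep with h | h
      · rw [h]; exact ⟨hw'1, hw'2⟩
      · rw [h]
        refine ⟨fun c => ?_, fun c => ?_⟩
        · rw [iv_neg, ract_neg, Pi.neg_apply, abs_neg]
          exact hw'1 c
        · rw [iv_neg, ract_neg, map_neg, Pi.neg_apply, abs_neg]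
          exact hw'2 c
    -- Remez
    have hvol : volume (J ∩ Jc O 0 1 τ) ≤ ENNReal.ofReal (ε / 2 * (b - a)) := by
      have hex : ∃ p : ℝ[X], p.natDegree ≤ D' ∧
          ∀ σ ∈ J ∩ Jc O 0 1 τ, |p.eval σ| < c * |p.eval e| := by
        have h1 : (∃ i, (R' : ℝ) ≤ |ract false T.k (ev P e) (iv w) i|) ∨
            ∃ i, δ0 ≤ |T.Pi (ract false T.k (ev P e) (iv w)) i| := by
          by_contra hcon
          push Not at hcon
          exact heO ⟨hcon.1, hcon.2⟩
        rcases h1 with ⟨i, hi⟩ | ⟨i, hi⟩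
        · obtain ⟨p, hp1, hp2⟩ := hpol (iv w) i
          refine ⟨p, hp1, fun σ hσ => ?_⟩
          rw [← hp2, ← hp2]
          calc |ract false T.k (ev P σ) (iv w) i| < R := (hsame σ hσ).1 i
            _ < c * R' := hRc
            _ ≤ c * |ract false T.k (ev P e) (iv w) i| := by gcongr
        · obtain ⟨p, hp1, hp2⟩ := hpolPi (iv w) i
          refine ⟨p, hp1, fun σ hσ => ?_⟩
          rw [← hp2, ← hp2]
          calc |T.Pi (ract false T.k (ev P σ) (iv w)) i| < δ1 := (hsame σ hσ).2 i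
            _ ≤ c * δ0 := hδ1c
            _ ≤ c * |T.Pi (ract false T.k (ev P e) (iv w)) i| := by gcongr
      obtain ⟨p, hp1, hp2⟩ := hex
      refine (measure_mono ?_).trans (hc p hp1 a b e hab he)
      intro σ hσ
      exact ⟨hIcc hσ.2, hp2 σ hσ⟩
    refine hvol.trans ?_
    rw [ENNReal.ofReal_mul (by positivity)]
    gcongr
    rw [← Real.volume_Ioo]
    exact measure_mono hIoo
  have h2 : ENNReal.ofReal (2 * (ε / 2)) * ENNReal.ofReal (1 - 0) = ENNReal.ofReal ε := by
    rw [sub_zero, ENNReal.ofReal_one, mul_one]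
    congr 1
    ring
  rw [h2] at hmain
  exact hmain

end QL
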