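import Mathlib
import Pool.Agent.Helper9_QL.Uniq

/-!
Modules unifdata and nd_path.
-/

set_option autoImplicit false
open Matrix Polynomial MeasureTheory Set Filter Topology

namespace QL
namespace H9

variable {ι : Type} [Fintype ι] [DecidableEq ι]

theorem exists_coord {κ : Type} [Fintype κ] {v : κ → ℝ} {δ : ℝ} (hδ : 0 < δ) (h : δ ≤ ‖v‖) :
    ∃ c, δ ≤ |v c| := by
  by_contra hcon
  push Not at hcon
  exact absurd ((pi_norm_lt_iff hδ).2 hcon) (not_lt.2 h)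

theorem ev_le_pos {a : ℝ} (ha : 0 < a) : ∀ᶠ δ in 𝓝[>] (0 : ℝ), δ ≤ a := by
  filter_upwards [Ioc_mem_nhdsGT ha] with δ hδ using hδ.2

theorem ract_ne_zero (b : Bool) (k : ℕ) {g : Matrix ι ι ℝ} (hg : g.det = 1)
    {w : (Fin k → ι) → ℤ} (hw : w ≠ 0) : ract b k g (iv w) ≠ 0 := by
  intro h
  apply hw
  have h1 := ract_inv_ract b k hg (iv w)
  rw [h] at h1
  have h2 : ract b k g⁻¹ (0 : (Fin k → ι) → ℝ) = 0 := Matrix.mulVec_zero _
  rw [h2, ← iv_zero] at h1
  exact (iv_inj h1.symm)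

theorem fin_one (b : Bool) (k : ℕ) {g : Matrix ι ι ℝ} (hg : g.det = 1) (R : ℝ) :
    {w : (Fin k → ι) → ℤ | ∀ c, |ract b k g (iv w) c| ≤ R}.Finite := by
  have := fin_bdd' b k {g} isCompact_singleton (fun x hx => by rw [hx]; exact hg) R
  refine this.subset fun w hw => ⟨g, rfl, hw⟩

theorem lower_bound (b : Bool) (k : ℕ) {g : Matrix ι ι ℝ} (hg : g.det = 1) :
    ∀ᶠ m in 𝓝[>] (0 : ℝ), ∀ w : (Fin k → ι) → ℤ, w ≠ 0 → ∃ c, m ≤ |ract b k g (iv w) c| := by
  have h1 : ∀ᶠ m in 𝓝[>] (0 : ℝ), ∀ w ∈ {w : (Fin k → ι) → ℤ | ∀ c, |ract b k g (iv w) c| ≤ 1},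
      w ≠ 0 → m ≤ ‖ract b k g (iv w)‖ := by
    rw [Filter.eventually_all_finite (fin_one b k hg 1)]
    intro w _
    by_cases hw : w = 0
    · exact Eventually.of_forall fun m h => absurd hw h
    · filter_upwards [ev_le_pos (norm_pos_iff.2 (ract_ne_zero b k hg hw))] with m hm _ using hm
  filter_upwards [h1, ev_le_pos one_pos, self_mem_nhdsWithin] with m hm hm1 hm0 w hw
  by_cases hF : ∀ c, |ract b k g (iv w) c| ≤ 1
  · exact exists_coord hm0 (hm w hF hw)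
  · push Not at hF
    obtain ⟨c, hc⟩ := hF
    exact ⟨c, hm1.trans hc.le⟩

theorem pi_lower (T : Tube ι) {g : Matrix ι ι ℝ} (hg : g.det = 1) (hs : ¬ Sing T g) (R : ℝ) :
    ∀ᶠ δ in 𝓝[>] (0 : ℝ), ∀ w : (Fin T.k → ι) → ℤ, w ≠ 0 →
      (∀ c, |ract false T.k g (iv w) c| ≤ R) → ∃ c, δ ≤ |T.Pi (ract false T.k g (iv w)) c| := by
  have h1 : ∀ᶠ δ in 𝓝[>] (0 : ℝ),
      ∀ w ∈ {w : (Fin T.k → ι) → ℤ | ∀ c, |ract false T.k g (iv w) c| ≤ R},
      w ≠ 0 → δ ≤ ‖T.Pi (ract false T.k g (iv w))‖ := by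
    rw [Filter.eventually_all_finite (fin_one false T.k hg R)]
    intro w _
    by_cases hw : w = 0
    · exact Eventually.of_forall fun m h => absurd hw h
    · have hne : T.Pi (ract false T.k g (iv w)) ≠ 0 := fun h => hs ⟨w, hw, h⟩
      filter_upwards [ev_le_pos (norm_pos_iff.2 hne)] with m hm _ using hm
  filter_upwards [h1, self_mem_nhdsWithin] with δ hδ hδ0 w hw hR
  exact exists_coord hδ0 (hδ w hR hw)

/-- integer Pluecker vector -/
def plz {k : ℕ} (A : Matrix ι (Fin k) ℤ) : (Fin k → ι) → ℤ := fun i => (A.submatrix i id).det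

theorem pl_im {k : ℕ} (A : Matrix ι (Fin k) ℤ) : pl (im A) = iv (plz A) := by
  funext i
  simp only [pl, iv, plz]
  have h := RingHom.map_det (Int.castRingHom ℝ) (A.submatrix i id)
  simp only [eq_intCast] at h
  rw [h]
  rfl

theorem plz_ne {k : ℕ} {A : Matrix ι (Fin k) ℤ} (h : ∃ i : Fin k → ι, (A.submatrix i id).det ≠ 0) :
    plz A ≠ 0 := by
  obtain ⟨i, hi⟩ := h
  intro h0
  exact hi (congrFun h0 i)

theorem u_zero {d : ℕ} (U : UAct ι d) : U.u 0 = 1 := by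
  have h1 := U.add 0 0
  rw [add_zero] at h1
  have h2 : (U.u 0)⁻¹ * U.u 0 = (U.u 0)⁻¹ * (U.u 0 * U.u 0) := by rw [← h1]
  rw [← Matrix.mul_assoc, inv_mul_one (U.det_one 0), Matrix.one_mul] at h2
  exact h2.symm

end H9

open H9 in
theorem unifdata (hpl : pl_mulStatement) (hgr : growthStatement) : unifdataStatement := by
  intro ι _ _ d U L K hK hK' y0 hy0
  -- kappa
  have hκ : ∀ᶠ m in 𝓝[>] (0 : ℝ), ∀ k ∈ Finset.range (K + 1), ∀ w : (Fin k → ι) → ℤ, w ≠ 0 →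
      ∃ c, m ≤ |ract true k y0 (iv w) c| := by
    rw [Filter.eventually_all_finset]
    intro k _
    exact lower_bound true k hy0.1
  obtain ⟨κ, hκ1, hκ0⟩ := (hκ.and self_mem_nhdsWithin).exists
  -- delta
  have hδ : ∀ R : ℕ, ∃ δ : ℝ, 0 < δ ∧ ∀ T ∈ L, ∀ w : (Fin T.k → ι) → ℤ, w ≠ 0 →
      (∀ c, |ract false T.k y0 (iv w) c| ≤ R) → ∃ c, δ ≤ |T.Pi (ract false T.k y0 (iv w)) c| := by
    intro R
    have h1 : ∀ᶠ δ in 𝓝[>] (0 : ℝ), ∀ T ∈ {T | T ∈ L}, ∀ w : (Fin T.k → ι) → ℤ, w ≠ 0 →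
        (∀ c, |ract false T.k y0 (iv w) c| ≤ R) →
        ∃ c, δ ≤ |T.Pi (ract false T.k y0 (iv w)) c| := by
      rw [Filter.eventually_all_finite (List.finite_toSet L)]
      intro T hT
      exact pi_lower T hy0.1 (hy0.2 T hT) R
    obtain ⟨δ, h2, h3⟩ := (h1.and self_mem_nhdsWithin).exists
    exact ⟨δ, h3, h2⟩
  choose δ hδ0 hδ1 using hδ
  refine ⟨κ, hκ0, δ, hδ0, fun z hz hfix θ hθ R0 => ?_⟩
  -- growth
  have hg1 : ∀ᶠ T in atTop (α := ℝ), ∀ k ∈ Finset.range (K + 1), ∀ w : (Fin k → ι) → ℤ,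
      (∃ w', ract true k (U.u w') (ract true k z (iv w)) ≠ ract true k z (iv w)) →
      ∃ τ ∈ Icc (0 : ℝ) 1, ∃ c, κ ≤ |ract true k (1 * U.u ((τ * T) • θ) * z) (iv w) c| := by
    rw [Filter.eventually_all_finset]
    intro k _
    obtain ⟨T0, hT0⟩ := hgr U z 1 hz.1 Matrix.det_one θ hθ true k κ
    filter_upwards [eventually_ge_atTop T0] with T hT using hT0 T hT
  have hg2 : ∀ᶠ T in atTop (α := ℝ), ∀ Tb ∈ {T | T ∈ L}, ∀ w : (Fin Tb.k → ι) → ℤ,
      (∃ w', ract false Tb.k (U.u w') (ract false Tb.k z (iv w)) ≠ ract false Tb.k z (iv w)) →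
      ∃ τ ∈ Icc (0 : ℝ) 1, ∃ c,
        (R0 : ℝ) ≤ |ract false Tb.k (1 * U.u ((τ * T) • θ) * z) (iv w) c| := by
    rw [Filter.eventually_all_finite (List.finite_toSet L)]
    intro Tb _
    obtain ⟨T0, hT0⟩ := hgr U z 1 hz.1 Matrix.det_one θ hθ false Tb.k R0
    filter_upwards [eventually_ge_atTop T0] with T hT using hT0 T hT
  obtain ⟨T0, hT0⟩ := Filter.eventually_atTop.1 (hg1.and hg2)
  refine ⟨T0, fun T hT => ?_⟩
  obtain ⟨h1, h2⟩ := hT0 T hT
  have hdu : ∀ w, (U.u w).det = 1 := U.det_one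
  constructor
  · intro k hk0 hk A hA
    have hkK : k ≤ K := hk.le.trans hK'
    have hminor : ∀ τ, pl (U.u ((τ * T) • θ) * z * im A) =
        ract true k (U.u ((τ * T) • θ) * z) (iv (plz A)) := by
      intro τ
      rw [hpl, pl_im]
    by_cases hf : ∀ w', ract true k (U.u w') (ract true k z (iv (plz A))) =
        ract true k z (iv (plz A))
    · -- fixed tensor
      have hmem : ract true k z (iv (plz A)) ∈ FixL U true k y0 := by
        rw [← hfix true k hkK]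
        exact ⟨⟨plz A, rfl⟩, hf⟩
      obtain ⟨⟨w, hw⟩, -⟩ := hmem
      have hw0 : w ≠ 0 := by
        rintro rfl
        rw [iv_zero] at hw
        have h3 : ract true k y0 (0 : (Fin k → ι) → ℝ) = 0 := Matrix.mulVec_zero _
        rw [h3] at hw
        exact ract_ne_zero true k hz.1 (plz_ne hA) hw
      obtain ⟨c, hc⟩ := hκ1 k (Finset.mem_range.2 (Nat.lt_succ_of_le hkK)) w hw0
      refine ⟨0, ⟨le_rfl, zero_le_one⟩, c, ?_⟩
      have h3 : ((U.u (((0 : ℝ) * T) • θ) * z * im A).submatrix c id).det =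
          pl (U.u (((0 : ℝ) * T) • θ) * z * im A) c := rfl
      rw [h3, hminor, ract_mul' true k _ _ (hdu _) hz.1, hf, hw]
      exact hc
    · push Not at hf
      obtain ⟨τ, hτ, c, hc⟩ := h1 k (Finset.mem_range.2 (Nat.lt_succ_of_le hkK)) (plz A) hf
      refine ⟨τ, hτ, c, ?_⟩
      have h3 : ((U.u ((τ * T) • θ) * z * im A).submatrix c id).det =
          pl (U.u ((τ * T) • θ) * z * im A) c := rfl
      rw [h3, hminor]
      rwa [Matrix.one_mul] at hc
  · intro Tb hTb R hR w hw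
    by_cases hf : ∀ w', ract false Tb.k (U.u w') (ract false Tb.k z (iv w)) =
        ract false Tb.k z (iv w)
    · have hmem : ract false Tb.k z (iv w) ∈ FixL U false Tb.k y0 := by
        rw [← hfix false Tb.k (hK Tb hTb)]
        exact ⟨⟨w, rfl⟩, hf⟩
      obtain ⟨⟨v, hv⟩, -⟩ := hmem
      have hv0 : v ≠ 0 := by
        rintro rfl
        rw [iv_zero] at hv
        have h3 : ract false Tb.k y0 (0 : (Fin Tb.k → ι) → ℝ) = 0 := Matrix.mulVec_zero _
        rw [h3] at hv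
        exact ract_ne_zero false Tb.k hz.1 hw hv
      refine ⟨0, ⟨le_rfl, zero_le_one⟩, ?_⟩
      have h4 : ract false Tb.k (U.u (((0 : ℝ) * T) • θ) * z) (iv w) =
          ract false Tb.k y0 (iv v) := by
        rw [ract_mul' false Tb.k _ _ (hdu _) hz.1, hf, hv]
      rw [h4]
      by_cases hb : ∀ c, |ract false Tb.k y0 (iv v) c| ≤ R
      · exact Or.inr (hδ1 R Tb hTb v hv0 hb)
      · push Not at hb
        obtain ⟨c, hc⟩ := hb
        exact Or.inl ⟨c, hc.le⟩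
    · push Not at hf
      obtain ⟨τ, hτ, c, hc⟩ := h2 Tb hTb w hf
      refine ⟨τ, hτ, Or.inl ⟨c, ?_⟩⟩
      rw [Matrix.one_mul] at hc
      exact le_trans (by exact_mod_cast hR) hc

open H9 in
theorem nd_path (hpl : pl_mulStatement) (hgr : growthStatement) : nd_pathStatement := by
  intro ι _ _ d U x g0 hx hg θ hθ κ hfix
  have hg1 : ∀ᶠ T in atTop (α := ℝ), ∀ k ∈ Finset.range (Fintype.card ι),
      ∀ w : (Fin k → ι) → ℤ,
      (∃ w', ract true k (U.u w') (ract true k x (iv w)) ≠ ract true k x (iv w)) →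
      ∃ τ ∈ Icc (0 : ℝ) 1, ∃ c, κ ≤ |ract true k (g0 * U.u ((τ * T) • θ) * x) (iv w) c| := by
    rw [Filter.eventually_all_finset]
    intro k _
    obtain ⟨T0, hT0⟩ := hgr U x g0 hx hg θ hθ true k κ
    filter_upwards [eventually_ge_atTop T0] with T hT using hT0 T hT
  obtain ⟨T0, hT0⟩ := Filter.eventually_atTop.1 hg1
  refine ⟨T0, fun T hT k hk0 hk A hA => ?_⟩
  by_cases hf : ∀ w', ract true k (U.u w') (ract true k x (iv (plz A))) =
      ract true k x (iv (plz A))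
  · obtain ⟨i, hi⟩ := hfix k hk0 hk A hA (by
      intro w i
      have h1 : pl (U.u w * (x * im A)) i = pl (x * im A) i := by
        rw [hpl, hpl, pl_im, hf]
      exact h1)
    refine ⟨0, ⟨le_rfl, zero_le_one⟩, i, ?_⟩
    have h2 : g0 * U.u (((0 : ℝ) * T) • θ) * x * im A = g0 * (x * im A) := by
      rw [zero_mul, zero_smul, u_zero, Matrix.mul_one, Matrix.mul_assoc]
    change κ ≤ |((g0 * U.u (((0 : ℝ) * T) • θ) * x * im A).submatrix i id).det|
    rw [h2]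
    exact hi
  · push Not at hf
    obtain ⟨τ, hτ, c, hc⟩ := hT0 T hT k (Finset.mem_range.2 hk) (plz A) hf
    refine ⟨τ, hτ, c, ?_⟩
    have h3 : ((g0 * U.u ((τ * T) • θ) * x * im A).submatrix c id).det =
        pl (g0 * U.u ((τ * T) • θ) * x * im A) c := rfl
    change κ ≤ |((g0 * U.u ((τ * T) • θ) * x * im A).submatrix c id).det|
    rw [h3, hpl, pl_im]
    exact hc

end QL
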