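import Mathlib
import Pool.Agent.Helper27_QL.StmtApp3
import Pool.Agent.Helper9_QL3.Disc

/-!
Modules planeB and fix2B.
-/

set_option autoImplicit false
open Matrix Polynomial MeasureTheory Set Filter Topology

namespace QL
namespace H9

theorem bok {d : ℕ} (hd : 2 ≤ d) {B : Matrix (Fin d) (Fin d) ℝ} (hB : GoodB d B) : QL3.BOK B :=
  ⟨hd, hB⟩

theorem uB_eq {d : ℕ} {B : Matrix (Fin d) (Fin d) ℝ} (hs : Bᵀ = B) (w : Fin d → ℝ) :
    uB B w = QL3.uB B w := by
  have h : B *ᵥ w = w ᵥ* B := by
    conv_lhs => rw [← hs]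
    exact Matrix.mulVec_transpose B w
  unfold uB QL3.uB
  rw [← h]
  ext i j
  rcases i with i | i <;> rcases j with j | j
  · rfl
  · change (if j = 0 then w i else 0) = ![w i, 0] j
    fin_cases j <;> simp
  · change (if i = 0 then 0 else -2 * (B *ᵥ w) j) = ![0, -2 * (B *ᵥ w) j] i
    fin_cases i <;> simp
  · rfl

theorem pl_mul_right {ι : Type} {k : ℕ} (M : Matrix ι (Fin k) ℝ) (κ : Matrix (Fin k) (Fin k) ℝ) :
    pl (M * κ) = κ.det • pl M := by
  funext i
  simp only [pl, Pi.smul_apply, smul_eq_mul]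
  rw [mul_comm, ← Matrix.det_mul]
  congr 1

theorem vB_mul {d k : ℕ} (b : ℝ) {M : Matrix (I3 d) (Fin k) ℝ} (h : LB d ᵥ* M = 0) :
    vB d b * M = M := by
  have hs : ∀ c, M (Sum.inr 0) c = 0 := by
    intro c
    have := congrFun h c
    simp only [Matrix.vecMul, dotProduct, LB, Fintype.sum_sum_type, Fin.sum_univ_two] at this
    simpa using this
  ext i c
  rw [Matrix.mul_apply, Fintype.sum_sum_type, Fin.sum_univ_two]
  rcases i with i | i
  · simp [vB, Matrix.one_apply]
  · fin_cases i <;> simp [vB, hs]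

end H9

open H9 in
theorem planeB : planeBStatement := by
  intro d hd B hB k hk hk' M hM
  have hBOK := bok hd hB
  have hcard : Fintype.card (QL3.I d) = d + 2 := by
    simp [QL3.I]
  have h1 := QL3.struct B hBOK k hk (by rw [hcard]; exact hk') M hM.1 (by
    intro w
    have h2 := hM.2 w
    rw [uB_eq hBOK.symm] at h2
    obtain ⟨κ, h3, h4⟩ := QL3.plEq M (QL3.uB B w * M) hM.1 h2
    exact ⟨κ, h3, h4⟩)
  exact ⟨h1.1, h1.2, fun b => vB_mul b h1.1⟩

namespace H9

/-! ### Fixed tensors -/

/-- the vector `(0, y, 0)` -/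
def Yv {d : ℕ} (y : Fin d → ℝ) : I3 d → ℝ := Sum.elim y 0

/-- `e_s` -/
def es (d : ℕ) : I3 d → ℝ := Pi.single (Sum.inr 0) 1

/-- `e_z` -/
def ez (d : ℕ) : I3 d → ℝ := Pi.single (Sum.inr 1) 1

theorem uB_ez {d : ℕ} {B : Matrix (Fin d) (Fin d) ℝ} (hs : Bᵀ = B) (w : Fin d → ℝ) :
    uB B w *ᵥ ez d = ez d := by
  rw [uB_eq hs]
  funext j
  rcases j with j | j
  · rw [QL3.uB_inl]
    simp [ez]
  · fin_cases j
    · simp only [Fin.zero_eta]
      rw [QL3.uB_s]
    · simp only [Fin.mk_one]
      rw [QL3.uB_z]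
      simp only [ez]
      simp [dotProduct]

theorem uB_Yv {d : ℕ} {B : Matrix (Fin d) (Fin d) ℝ} (hs : Bᵀ = B) (w y : Fin d → ℝ) :
    uB B w *ᵥ Yv y = Yv y + (-(2 * ((w ᵥ* B) ⬝ᵥ y))) • ez d := by
  rw [uB_eq hs]
  funext j
  rcases j with j | j
  · rw [QL3.uB_inl]
    simp [Yv, ez]
  · fin_cases j
    · simp only [Fin.zero_eta]
      rw [QL3.uB_s]
      simp [Yv, ez]
    · simp only [Fin.mk_one]
      rw [QL3.uB_z]
      simp [ez, Yv]

theorem uB_es {d : ℕ} {B : Matrix (Fin d) (Fin d) ℝ} (hs : Bᵀ = B) (w : Fin d → ℝ) :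
    uB B w *ᵥ es d = es d + Yv w + (-((w ᵥ* B) ⬝ᵥ w)) • ez d := by
  rw [uB_eq hs]
  have key : (w ᵥ* B) ⬝ᵥ w = w ⬝ᵥ B *ᵥ w := (dotProduct_mulVec _ _ _).symm
  funext j
  rcases j with j | j
  · rw [QL3.uB_inl]
    simp [Yv, ez, es]
  · fin_cases j
    · simp only [Fin.zero_eta]
      rw [QL3.uB_s]
      simp [Yv, ez, es]
    · simp only [Fin.mk_one]
      rw [QL3.uB_z, key]
      simp [ez, Yv, es, dotProduct]

end H9

namespace H9

theorem Yv_single {d : ℕ} (i : Fin d) : Yv (Pi.single i 1) = (Pi.single (Sum.inl i) 1 : I3 d → ℝ) := by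
  funext j
  rcases j with j | j
  · simp only [Yv, Sum.elim_inl]
    by_cases h : j = i
    · subst h; simp
    · rw [Pi.single_eq_of_ne h, Pi.single_eq_of_ne (by simpa using h)]
  · simp [Yv]

theorem single_pair {ι : Type} [Fintype ι] [DecidableEq ι] (M : Matrix ι ι ℝ) (i j : ι) :
    (Pi.single i 1 : ι → ℝ) ⬝ᵥ M *ᵥ (Pi.single j 1 : ι → ℝ) = M i j := by
  rw [Matrix.mulVec_single_one, single_dotProduct, one_mul]
  rfl

end H9

open H9 in
theorem fix2B : fix2BStatement := by
  intro d hd B hB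
  have hBOK := bok hd hB
  have hs := hBOK.symm
  obtain ⟨w0, hw0⟩ := hBOK.exists_nonzero
  set q : (Fin d → ℝ) → (Fin d → ℝ) → ℝ := fun w y => (w ᵥ* B) ⬝ᵥ y with hq
  have hq0 : q w0 w0 ≠ 0 := by
    have key : (w0 ᵥ* B) ⬝ᵥ w0 = w0 ⬝ᵥ B *ᵥ w0 := (dotProduct_mulVec _ _ _).symm
    simp only [hq, key]
    exact hw0
  have hu1 : ∀ w, uB B w *ᵥ ez d = ez d := uB_ez hs
  have hu2 : ∀ w y, uB B w *ᵥ Yv y = Yv y + (-(2 * q w y)) • ez d := uB_Yv hs
  have hu3 : ∀ w, uB B w *ᵥ es d = es d + Yv w + (-(q w w)) • ez d := uB_es hs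
  constructor
  · intro M hM
    set β : (I3 d → ℝ) →ₗ[ℝ] (I3 d → ℝ) →ₗ[ℝ] ℝ := Matrix.toLinearMap₂' ℝ M with hβ
    have hβa : ∀ v v', β v v' = v ⬝ᵥ M *ᵥ v' := fun v v' => Matrix.toLinearMap₂'_apply' M v v'
    have hinv : ∀ w v v', β (uB B w *ᵥ v) (uB B w *ᵥ v') = β v v' := by
      intro w v v'
      rw [hβa, hβa]
      conv_rhs => rw [← hM w]
      calc (uB B w *ᵥ v) ⬝ᵥ M *ᵥ (uB B w *ᵥ v')
          = v ⬝ᵥ (uB B w)ᵀ *ᵥ (M *ᵥ (uB B w *ᵥ v')) := by
            rw [Matrix.dotProduct_mulVec v, Matrix.vecMul_transpose]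
        _ = v ⬝ᵥ ((uB B w)ᵀ * M * uB B w) *ᵥ v' := by
            rw [Matrix.mulVec_mulVec, Matrix.mulVec_mulVec]
    -- F1
    have F1 : β (ez d) (ez d) = 0 := by
      have h := hinv w0 (Yv w0) (ez d)
      rw [hu1, hu2, map_add, map_smul, LinearMap.add_apply, LinearMap.smul_apply, smul_eq_mul] at h
      have h2 : -(2 * q w0 w0) * β (ez d) (ez d) = 0 := by linarith
      rcases mul_eq_zero.1 h2 with h3 | h3
      · exfalso; apply hq0; linarith
      · exact h3
    have F2 : ∀ w, β (Yv w) (ez d) = 0 := by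
      intro w
      have h := hinv w (es d) (ez d)
      rw [hu1, hu3, map_add, map_add, map_smul, LinearMap.add_apply, LinearMap.add_apply,
        LinearMap.smul_apply, smul_eq_mul, F1] at h
      linarith
    have F3 : ∀ w, β (ez d) (Yv w) = 0 := by
      intro w
      have h := hinv w (ez d) (es d)
      rw [hu1, hu3, map_add, map_add, map_smul, smul_eq_mul, F1] at h
      linarith
    have F4 : ∀ w y, β (Yv w) (Yv y) = 2 * q w y * β (es d) (ez d) := by
      intro w y
      have h := hinv w (es d) (Yv y)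
      simp only [hu2, hu3, map_add, map_smul, LinearMap.add_apply, LinearMap.smul_apply,
        smul_eq_mul, F1, F2, F3] at h
      linarith
    have F5 : ∀ w y, β (Yv y) (Yv w) = 2 * q w y * β (ez d) (es d) := by
      intro w y
      have h := hinv w (Yv y) (es d)
      simp only [hu2, hu3, map_add, map_smul, LinearMap.add_apply, LinearMap.smul_apply,
        smul_eq_mul, F1, F2, F3] at h
      linarith
    have F6 : β (ez d) (es d) = β (es d) (ez d) := by
      have h1 := F4 w0 w0
      have h2 := F5 w0 w0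
      have h3 : 2 * q w0 w0 * (β (ez d) (es d) - β (es d) (ez d)) = 0 := by linarith
      rcases mul_eq_zero.1 h3 with h4 | h4
      · exfalso; apply hq0; linarith
      · linarith
    have F7 : ∀ w, β (Yv w) (es d) = -β (es d) (Yv w) := by
      intro w
      have h := hinv w (es d) (es d)
      simp only [hu3, map_add, map_smul, LinearMap.add_apply, LinearMap.smul_apply,
        smul_eq_mul, F1, F2, F3, F4, F6] at h
      linarith
    refine ⟨2 * β (es d) (ez d), β (es d) (es d), fun i => β (es d) (Yv (Pi.single i 1)), ?_⟩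
    have hent : ∀ i j, M i j = β (Pi.single i 1) (Pi.single j 1) := by
      intro i j
      rw [hβa, single_pair]
    ext i j
    rw [hent]
    simp only [Matrix.add_apply, Matrix.sub_apply, Matrix.smul_apply, smul_eq_mul, LL, QB, LB,
      Matrix.vecMulVec_apply]
    rcases i with i | i <;> rcases j with j | j
    · rw [← Yv_single, ← Yv_single, F4]
      have : q (Pi.single i 1) (Pi.single j 1) = B i j := by
        simp [hq, single_vecMul]
      rw [this]
      simp
      ring
    · fin_cases j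
      · simp only [Fin.zero_eta]
        rw [← Yv_single]
        have := F7 (Pi.single i 1)
        simp only [es] at this ⊢
        rw [this]
        simp
      · simp only [Fin.mk_one]
        rw [← Yv_single]
        have := F2 (Pi.single i 1)
        simp only [ez] at this
        rw [this]
        simp
    · fin_cases i
      · simp only [Fin.zero_eta]
        rw [← Yv_single]
        simp [es]
      · simp only [Fin.mk_one]
        rw [← Yv_single]
        have := F3 (Pi.single j 1)
        simp only [ez] at this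
        rw [this]
        simp
    · fin_cases i <;> fin_cases j
      · simp [es]
      · simp [es, ez]
        ring
      · have := F6
        simp only [es, ez] at this
        simp [this, es, ez]
        ring
      · have := F1
        simp only [ez] at this
        simp [this]
  · intro l hl
    have hinv : ∀ w v, l ⬝ᵥ (uB B w *ᵥ v) = l ⬝ᵥ v := by
      intro w v
      rw [Matrix.dotProduct_mulVec, hl]
    have G1 : l ⬝ᵥ ez d = 0 := by
      have h := hinv w0 (Yv w0)
      rw [hu2, dotProduct_add, dotProduct_smul, smul_eq_mul] at h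
      have h2 : -(2 * q w0 w0) * (l ⬝ᵥ ez d) = 0 := by linarith
      rcases mul_eq_zero.1 h2 with h3 | h3
      · exfalso; apply hq0; linarith
      · exact h3
    have G2 : ∀ w, l ⬝ᵥ Yv w = 0 := by
      intro w
      have h := hinv w (es d)
      rw [hu3, dotProduct_add, dotProduct_add, dotProduct_smul, smul_eq_mul, G1] at h
      linarith
    refine ⟨l (Sum.inr 0), ?_⟩
    funext j
    rcases j with j | j
    · have h := G2 (Pi.single j 1)
      rw [Yv_single, dotProduct_single, mul_one] at h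
      rw [h]
      simp [LB]
    · fin_cases j
      · simp [LB]
      · have h := G1
        rw [ez, dotProduct_single, mul_one] at h
        simp only [Fin.mk_one]
        rw [h]
        simp [LB]

end QL
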