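import Mathlib
import Pool.Agent.Helper9_QL.Tens

/-!
Module UAct_ray.
-/

set_option autoImplicit false
open Matrix Polynomial MeasureTheory Set Filter Topology

namespace QL
namespace H9

variable {ι : Type} [Fintype ι] [DecidableEq ι]

theorem ev_C (A : Matrix ι ι ℝ) (τ : ℝ) : ev (A.map Polynomial.C) τ = A := by
  unfold ev
  ext i j
  simp

theorem natDegree_mul_le_mat {P Q : Matrix ι ι ℝ[X]} {D E : ℕ} (hP : ∀ i j, (P i j).natDegree ≤ D)
    (hQ : ∀ i j, (Q i j).natDegree ≤ E) (i j : ι) : ((P * Q) i j).natDegree ≤ D + E := by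
  rw [Matrix.mul_apply]
  refine Polynomial.natDegree_sum_le_of_forall_le _ _ fun l _ => ?_
  exact (Polynomial.natDegree_mul_le).trans (Nat.add_le_add (hP i l) (hQ l j))

end H9

open H9 in
theorem UAct_ray : UAct_rayStatement := by
  intro ι _ _ d U
  refine ⟨Finset.univ.sup fun p : ι × ι => (U.pol p.1 p.2).totalDegree, fun g x θ T => ?_⟩
  set D := Finset.univ.sup fun p : ι × ι => (U.pol p.1 p.2).totalDegree with hD
  obtain ⟨f, hf1, hf2⟩ : ∃ f : Fin d → ℝ[X], (∀ k, (f k).natDegree ≤ 1) ∧
      ∀ k τ, Polynomial.eval τ (f k) = (τ * T) * θ k := by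
    refine ⟨fun k => Polynomial.C (T * θ k) * Polynomial.X, fun k => ?_, fun k τ => ?_⟩
    · exact (Polynomial.natDegree_C_mul_le _ _).trans Polynomial.natDegree_X_le
    · simp only [Polynomial.eval_mul, Polynomial.eval_C, Polynomial.eval_X]
      ring
  set M : Matrix ι ι ℝ[X] := fun i j => MvPolynomial.aeval f (U.pol i j) with hM
  have hMd : ∀ i j, (M i j).natDegree ≤ D := by
    intro i j
    have h1 : (U.pol i j).totalDegree ≤ D :=
      Finset.le_sup (f := fun p : ι × ι => (U.pol p.1 p.2).totalDegree) (Finset.mem_univ (i, j))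
    have h2 := MvPolynomial.aeval_natDegree_le (U.pol i j) h1 f (n := 1) hf1
    rwa [mul_one] at h2
  have hMe : ∀ τ, ev M τ = U.u ((τ * T) • θ) := by
    intro τ
    ext i j
    change Polynomial.eval τ (MvPolynomial.aeval f (U.pol i j)) = _
    rw [U.spec]
    have h1 : ∀ p : MvPolynomial (Fin d) ℝ, Polynomial.eval τ (MvPolynomial.aeval f p) =
        MvPolynomial.eval ((τ * T) • θ) p := by
      intro p
      induction p using MvPolynomial.induction_on with
      | C a => simp
      | add p q hp hq => rw [map_add, map_add, Polynomial.eval_add, hp, hq]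
      | mul_X p k hp =>
        rw [map_mul, map_mul, MvPolynomial.aeval_X, Polynomial.eval_mul, hp, hf2,
          MvPolynomial.eval_X, Pi.smul_apply, smul_eq_mul]
    exact h1 _
  refine ⟨g.map Polynomial.C * M * x.map Polynomial.C, ?_, ?_⟩
  · intro i j
    have h0 : ∀ (A : Matrix ι ι ℝ) (i j : ι), ((A.map Polynomial.C) i j).natDegree ≤ 0 := by
      intro A i j
      simp
    have h1 := natDegree_mul_le_mat (natDegree_mul_le_mat (h0 g) hMd) (h0 x) i j
    simpa using h1
  · intro τ
    rw [ev_mul, ev_mul, ev_C, ev_C, hMe]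

end QL
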