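import Mathlib
import Pool.Agent.Helper9_QL.Plane
import Pool.Agent.Helper9_QL.Unif

/-!
Module skewB.
-/

set_option autoImplicit false
open Matrix Polynomial MeasureTheory Set Filter Topology

namespace QL
namespace H9

/-- entries of `xᵀ (L ∧ η) x` -/
theorem wedge_entry {ι : Type} [Fintype ι] (L η : ι → ℝ) (x : Matrix ι ι ℝ) (i j : ι) :
    (xᵀ * (vecMulVec L η - vecMulVec η L) * x) i j =
      (L ᵥ* x) i * (η ᵥ* x) j - (η ᵥ* x) i * (L ᵥ* x) j := by
  rw [Matrix.mul_sub, Matrix.sub_mul, Matrix.sub_apply]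
  have h : ∀ a b : ι → ℝ, (xᵀ * vecMulVec a b * x) i j = (a ᵥ* x) i * (b ᵥ* x) j := by
    intro a b
    rw [Matrix.mul_vecMulVec, Matrix.vecMulVec_mul, Matrix.vecMulVec_apply,
      Matrix.mulVec_transpose]
  rw [h, h]

/-- the kernel of a skew integer matrix of rank two -/
theorem kerA {ι : Type} [Fintype ι] [DecidableEq ι] {d : ℕ} (hcard : Fintype.card ι = d + 2)
    (R : Matrix ι ι ℤ) (hR : R ≠ 0) (P N : ι → ℝ)
    (hPN : ∀ i j, ((R i j : ℤ) : ℝ) = P i * N j - N i * P j) :
    ∃ A : Matrix ι (Fin d) ℤ, (∃ i : Fin d → ι, (A.submatrix i id).det ≠ 0) ∧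
      P ᵥ* im A = 0 ∧ N ᵥ* im A = 0 ∧
      ∀ u : ι → ℝ, im R *ᵥ u = 0 → ∃ a, im A *ᵥ a = u := by
  have hskew : ∀ i j, R j i = -R i j := by
    intro i j
    have h1 := hPN i j
    have h2 := hPN j i
    have h3 : ((R j i : ℤ) : ℝ) = ((-R i j : ℤ) : ℝ) := by
      push_cast
      rw [h1, h2]; ring
    exact_mod_cast h3
  obtain ⟨i0, j0, hij⟩ : ∃ i0 j0, R i0 j0 ≠ 0 := by
    by_contra hcon
    push Not at hcon
    exact hR (by ext i j; exact hcon i j)
  have hne : i0 ≠ j0 := by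
    rintro rfl
    have := hskew i0 i0
    omega
  set s : Finset ι := (Finset.univ.erase i0).erase j0 with hs
  have hscard : s.card = d := by
    rw [hs, Finset.card_erase_of_mem (Finset.mem_erase.2 ⟨hne.symm, Finset.mem_univ _⟩),
      Finset.card_erase_of_mem (Finset.mem_univ _), Finset.card_univ, hcard]
    omega
  set e := Finset.equivFinOfCardEq hscard with he
  set f : Fin d → ι := fun c => (e.symm c).1 with hf
  have hfs : ∀ c, f c ∈ s := fun c => (e.symm c).2
  have hfi : ∀ c, f c ≠ i0 := fun c => (Finset.mem_erase.1 (Finset.mem_erase.1 (hfs c)).2).1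
  have hfj : ∀ c, f c ≠ j0 := fun c => (Finset.mem_erase.1 (hfs c)).1
  have hfinj : Function.Injective f := by
    intro a b hab
    exact e.symm.injective (Subtype.ext hab)
  have hfsurj : ∀ r, r ≠ i0 → r ≠ j0 → ∃ c, f c = r := by
    intro r h1 h2
    have hr : r ∈ s := Finset.mem_erase.2 ⟨h2, Finset.mem_erase.2 ⟨h1, Finset.mem_univ _⟩⟩
    exact ⟨e ⟨r, hr⟩, by simp [hf]⟩
  set A : Matrix ι (Fin d) ℤ := fun r c => (if r = f c then R i0 j0 else 0) +
    (if r = i0 then R j0 (f c) else 0) + (if r = j0 then R (f c) i0 else 0) with hA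
  have hsum : ∀ (v : ι → ℝ) (c : Fin d), (v ᵥ* im A) c =
      v (f c) * R i0 j0 + v i0 * R j0 (f c) + v j0 * R (f c) i0 := by
    intro v c
    simp only [Matrix.vecMul, dotProduct, im, hA]
    push_cast
    simp only [mul_add, mul_ite, mul_zero, Finset.sum_add_distrib, Finset.sum_ite_eq',
      Finset.mem_univ, if_true]
  refine ⟨A, ⟨f, ?_⟩, ?_, ?_, ?_⟩
  · have h1 : A.submatrix f id = (R i0 j0) • (1 : Matrix (Fin d) (Fin d) ℤ) := by
      ext c' c
      have h0 : (A.submatrix f id) c' c = (if f c' = f c then R i0 j0 else 0) +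
        (if f c' = i0 then R j0 (f c) else 0) + (if f c' = j0 then R (f c) i0 else 0) := rfl
      rw [h0, if_neg (hfi c'), if_neg (hfj c'), Matrix.smul_apply, Matrix.one_apply]
      by_cases h : c' = c
      · subst h; simp
      · rw [if_neg h, if_neg (fun h' => h (hfinj h'))]
        simp
    rw [h1, Matrix.det_smul, Matrix.det_one, mul_one]
    exact pow_ne_zero _ hij
  · funext c
    rw [hsum, hPN, hPN, hPN, Pi.zero_apply]
    ring
  · funext c
    rw [hsum, hPN, hPN, hPN, Pi.zero_apply]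
    ring
  · intro u hu
    have hr : ((R i0 j0 : ℤ) : ℝ) ≠ 0 := by exact_mod_cast hij
    -- sums over `s`
    have hsplit : ∀ g : ι → ℝ, ∑ c, g (f c) = ∑ r, g r - g i0 - g j0 := by
      intro g
      have h1 : ∑ c, g (f c) = ∑ r ∈ s, g r := by
        rw [← Finset.sum_coe_sort s g]
        exact (Fintype.sum_equiv e (fun r : s => g r.1) (fun c => g (f c)) (fun r => by
          simp [hf])).symm
      rw [h1, hs, Finset.sum_erase_eq_sub (Finset.mem_erase.2 ⟨hne.symm, Finset.mem_univ _⟩),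
        Finset.sum_erase_eq_sub (Finset.mem_univ _)]
    refine ⟨fun c => u (f c) / R i0 j0, ?_⟩
    have hrow : ∀ r, ∑ c, ((R r (f c) : ℤ) : ℝ) * u (f c) =
        -((R r i0 : ℤ) : ℝ) * u i0 - ((R r j0 : ℤ) : ℝ) * u j0 := by
      intro r
      rw [hsplit fun k => ((R r k : ℤ) : ℝ) * u k]
      have h1 : ∑ k, ((R r k : ℤ) : ℝ) * u k = 0 := congrFun hu r
      rw [h1]
      ring
    funext r
    have hexp : (im A *ᵥ fun c => u (f c) / R i0 j0) r =
        ∑ c, ((if r = f c then ((R i0 j0 : ℤ) : ℝ) else 0) +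
          (if r = i0 then ((R j0 (f c) : ℤ) : ℝ) else 0) +
          (if r = j0 then ((R (f c) i0 : ℤ) : ℝ) else 0)) * (u (f c) / R i0 j0) := by
      simp only [Matrix.mulVec, dotProduct, im, hA]
      push_cast
      rfl
    rw [hexp]
    by_cases h1 : r = i0
    · subst h1
      have h2 : ∀ c, ((if r = f c then ((R r j0 : ℤ) : ℝ) else 0) +
          (if r = r then ((R j0 (f c) : ℤ) : ℝ) else 0) +
          (if r = j0 then ((R (f c) r : ℤ) : ℝ) else 0)) * (u (f c) / R r j0) =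
          (((R j0 (f c) : ℤ) : ℝ) * u (f c)) * (1 / R r j0) := by
        intro c
        rw [if_neg (hfi c).symm, if_pos rfl, if_neg hne]
        ring
      rw [Finset.sum_congr rfl fun c _ => h2 c, ← Finset.sum_mul, hrow]
      have h3 : ((R j0 j0 : ℤ) : ℝ) = 0 := by
        rw [hPN]; ring
      have h4 : ((R j0 r : ℤ) : ℝ) = -((R r j0 : ℤ) : ℝ) := by
        rw [hPN, hPN]; ring
      rw [h3, h4]
      field_simp
      ring
    · by_cases h1' : r = j0
      · subst h1'
        have h2 : ∀ c, ((if r = f c then ((R i0 r : ℤ) : ℝ) else 0) +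
            (if r = i0 then ((R r (f c) : ℤ) : ℝ) else 0) +
            (if r = r then ((R (f c) i0 : ℤ) : ℝ) else 0)) * (u (f c) / R i0 r) =
            (((R i0 (f c) : ℤ) : ℝ) * u (f c)) * (-1 / R i0 r) := by
          intro c
          rw [if_neg (hfj c).symm, if_pos rfl, if_neg h1]
          have h4 : ((R (f c) i0 : ℤ) : ℝ) = -((R i0 (f c) : ℤ) : ℝ) := by
            rw [hPN, hPN]; ring
          rw [h4]
          ring
        rw [Finset.sum_congr rfl fun c _ => h2 c, ← Finset.sum_mul, hrow]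
        have h3 : ((R i0 i0 : ℤ) : ℝ) = 0 := by
          rw [hPN]; ring
        rw [h3]
        field_simp
        ring
      · obtain ⟨c0, rfl⟩ := hfsurj r h1 h1'
        rw [Finset.sum_eq_single c0]
        · rw [if_pos rfl, if_neg h1, if_neg h1', add_zero, add_zero]
          field_simp
        · intro c _ hc
          rw [if_neg (fun h => hc (hfinj h).symm), if_neg h1, if_neg h1']
          ring
        · intro h
          exact absurd (Finset.mem_univ c0) h

/-- `U`-invariance of a plane in `ker L` containing `e_z` -/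
theorem plfix_of {d k : ℕ} {B : Matrix (Fin d) (Fin d) ℝ} (hs : Bᵀ = B)
    (M : Matrix (I3 d) (Fin k) ℝ) (hL : LB d ᵥ* M = 0) (a : Fin k → ℝ) (ha : M *ᵥ a = ez d)
    (w : Fin d → ℝ) : pl (uB B w * M) = pl M := by
  set g : Fin k → ℝ := fun c => 2 * ((w ᵥ* B) ⬝ᵥ fun i => M (Sum.inl i) c) with hg
  have hsz : ∀ c, M (Sum.inr 0) c = 0 := by
    intro c
    have := congrFun hL c
    simp only [Matrix.vecMul, dotProduct, LB, Fintype.sum_sum_type, Fin.sum_univ_two] at this
    simpa using this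
  have h1 : uB B w * M = M * (1 - vecMulVec a g) := by
    rw [Matrix.mul_sub, Matrix.mul_one, Matrix.mul_vecMulVec, ha]
    ext i c
    have h2 : (uB B w * M) i c = (uB B w *ᵥ fun r => M r c) i := rfl
    rw [h2, uB_eq hs, Matrix.sub_apply, Matrix.vecMulVec_apply]
    rcases i with i | i
    · rw [QL3.uB_inl, hsz]
      simp [ez]
    · fin_cases i
      · simp only [Fin.zero_eta]
        rw [QL3.uB_s]
        simp [ez]
      · simp only [Fin.mk_one]
        rw [QL3.uB_z, hsz]
        simp [ez, hg]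
  have hga : g ⬝ᵥ a = 0 := by
    have h2 : g ⬝ᵥ a = 2 * ((w ᵥ* B) ⬝ᵥ fun i => (M *ᵥ a) (Sum.inl i)) := by
      simp only [hg, dotProduct, Matrix.mulVec]
      simp only [Finset.mul_sum, Finset.sum_mul]
      rw [Finset.sum_comm]
      refine Finset.sum_congr rfl fun i _ => Finset.sum_congr rfl fun c _ => ?_
      ring
    rw [h2, ha]
    simp [ez, dotProduct]
  rw [h1, pl_mul_right]
  have hdet : (1 - vecMulVec a g).det = 1 := by
    rw [Matrix.vecMulVec_eq Unit, Matrix.det_one_sub_mul_comm, Matrix.det_unique,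
      Matrix.sub_apply, Matrix.one_apply_eq, Matrix.replicateRow_mul_replicateCol_apply, hga,
      sub_zero]
  rw [hdet, one_smul]

end H9

open H9 in
theorem skewB (hT : TLB_factsStatement) (hpl : pl_mulStatement) : skewBStatement := by
  intro d hd B hB x hx R hfix
  have hBOK := bok hd hB
  have hs := hBOK.symm
  obtain ⟨-, -, hns⟩ := hT d hd B hB
  obtain ⟨hdet, -, h2⟩ := (hns x).1 hx
  set M := (x⁻¹)ᵀ * im R * x⁻¹ with hM
  obtain ⟨a, b, η, hη⟩ := (fix2B d hd B hB).1 M hfix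
  set N : I3 d → ℝ := Sum.elim η 0 with hN
  have hxM : im R = xᵀ * M * x := by
    have e1 : xᵀ * (x⁻¹)ᵀ = 1 := by
      rw [← Matrix.transpose_mul, inv_mul_one hdet, Matrix.transpose_one]
    have e2 : x⁻¹ * x = 1 := inv_mul_one hdet
    calc im R = 1 * im R * 1 := by rw [Matrix.one_mul, Matrix.mul_one]
      _ = (xᵀ * (x⁻¹)ᵀ) * im R * (x⁻¹ * x) := by rw [e1, e2]
      _ = xᵀ * M * x := by rw [hM]; simp only [Matrix.mul_assoc]
  have hQs : (QB B)ᵀ = QB B := by
    unfold QB
    rw [Matrix.fromBlocks_transpose, hs]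
    congr 1
    ext i j
    fin_cases i <;> fin_cases j <;> simp
  have hLs : (LL d)ᵀ = LL d := by
    unfold LL
    ext i j
    simp [Matrix.vecMulVec_apply, mul_comm]
  have hsym : M + Mᵀ = (2 * a) • QB B + (2 * b) • LL d := by
    rw [hη]
    simp only [Matrix.transpose_add, Matrix.transpose_sub, Matrix.transpose_smul, hQs, hLs,
      Matrix.transpose_vecMulVec]
    ext i j
    simp only [Matrix.add_apply, Matrix.sub_apply, Matrix.smul_apply, smul_eq_mul]
    ring
  have hRs : im (R + Rᵀ) = (2 * a) • (xᵀ * QB B * x) +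
      (2 * b) • vecMulVec (LB d ᵥ* x) (LB d ᵥ* x) := by
    have e1 : im (R + Rᵀ) = im R + (im R)ᵀ := by
      ext i j
      simp [im]
    have e2 : vecMulVec (LB d ᵥ* x) (LB d ᵥ* x) = xᵀ * LL d * x := by
      unfold LL
      rw [Matrix.mul_vecMulVec, Matrix.vecMulVec_mul, Matrix.mulVec_transpose]
    have e3 : ∀ M' : M3 d, xᵀ * M' * x + (xᵀ * M' * x)ᵀ = xᵀ * (M' + M'ᵀ) * x := by
      intro M'
      rw [Matrix.transpose_mul, Matrix.transpose_mul, Matrix.transpose_transpose,
        Matrix.mul_add, Matrix.add_mul, Matrix.mul_assoc xᵀ M'ᵀ x]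
    rw [e1, hxM, e2, e3, hsym]
    simp only [Matrix.mul_add, Matrix.add_mul, Matrix.mul_smul, Matrix.smul_mul]
  have hR0 : R + Rᵀ = 0 := by
    by_contra hne
    exact h2 _ hne ⟨2 * a, 2 * b, hRs⟩
  have hM0 : M + Mᵀ = 0 := by
    have e1 : im (R + Rᵀ) = im R + (im R)ᵀ := by
      ext i j
      simp [im]
    have e2 : im R + (im R)ᵀ = 0 := by
      rw [← e1, hR0]
      ext i j
      simp [im]
    have e3 : M + Mᵀ = (x⁻¹)ᵀ * (im R + (im R)ᵀ) * x⁻¹ := by
      rw [hM, Matrix.transpose_mul, Matrix.transpose_mul, Matrix.transpose_transpose,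
        Matrix.mul_add, Matrix.add_mul, ← Matrix.mul_assoc]
    rw [e3, e2, Matrix.mul_zero, Matrix.zero_mul]
  rw [hM0] at hsym
  have ha : a = 0 := by
    have h3 := congrFun (congrFun hsym (Sum.inr 0)) (Sum.inr 1)
    simp [QB, LL, LB, Matrix.vecMulVec_apply] at h3
    linarith
  have hb : b = 0 := by
    have h3 := congrFun (congrFun hsym (Sum.inr 0)) (Sum.inr 0)
    simp [QB, LL, LB, Matrix.vecMulVec_apply] at h3
    linarith
  rw [ha, hb, zero_smul, zero_smul, zero_add, zero_add] at hη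
  refine ⟨η, hη, fun hRne => ?_⟩
  have hcard : Fintype.card (I3 d) = d + 2 := by simp [I3]
  have hPN : ∀ i j, ((R i j : ℤ) : ℝ) =
      (LB d ᵥ* x) i * (N ᵥ* x) j - (N ᵥ* x) i * (LB d ᵥ* x) j := by
    intro i j
    have h3 : ((R i j : ℤ) : ℝ) = im R i j := rfl
    rw [h3, hxM, hη, wedge_entry]
  obtain ⟨A, hA, hA1, hA2, hA3⟩ := kerA hcard R hRne (LB d ᵥ* x) (N ᵥ* x) hPN
  have hL : LB d ᵥ* (x * im A) = 0 := by rw [← Matrix.vecMul_vecMul, hA1]
  have hN' : N ᵥ* (x * im A) = 0 := by rw [← Matrix.vecMul_vecMul, hA2]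
  -- `e_z`
  have hez : im R *ᵥ (x⁻¹ *ᵥ ez d) = 0 := by
    have e1 : ∀ p q : I3 d → ℝ, vecMulVec p q *ᵥ ez d = (q (Sum.inr 1)) • p := by
      intro p q
      unfold ez
      rw [Matrix.mulVec_single_one]
      funext i
      simp [Matrix.vecMulVec_apply, mul_comm]
    have e2 : (vecMulVec (LB d) N - vecMulVec N (LB d)) *ᵥ ez d = 0 := by
      rw [Matrix.sub_mulVec, e1, e1]
      have h4 : N (Sum.inr 1) = 0 := by rw [hN]; rfl
      have h5 : LB d (Sum.inr 1) = 0 := by simp [LB]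
      rw [h4, h5, zero_smul, zero_smul, sub_zero]
    rw [hxM, Matrix.mulVec_mulVec, Matrix.mul_assoc, mul_inv_one hdet, Matrix.mul_one, hη,
      ← Matrix.mulVec_mulVec, e2, Matrix.mulVec_zero]
  obtain ⟨a', ha'⟩ := hA3 _ hez
  have hMa : (x * im A) *ᵥ a' = ez d := by
    rw [← Matrix.mulVec_mulVec, ha', Matrix.mulVec_mulVec, mul_inv_one hdet, Matrix.one_mulVec]
  refine ⟨A, ⟨?_, fun w => plfix_of hs _ hL a' hMa w⟩, hL, hN'⟩
  have h3 : pl (x * im A) ≠ 0 := by
    rw [hpl, pl_im]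
    exact ract_ne_zero true d hdet (plz_ne hA)
  exact Function.ne_iff.1 h3

end QL
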