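import Mathlib
import Pool.Agent.Helper9_QL.Skew

/-!
Module trichB.
-/

set_option autoImplicit false
open Matrix Polynomial MeasureTheory Set Filter Topology

namespace QL
namespace H9

theorem row_s {d k : ℕ} {M : Matrix (I3 d) (Fin k) ℝ} (hL : LB d ᵥ* M = 0) (c : Fin k) :
    M (Sum.inr 0) c = 0 := by
  have := congrFun hL c
  simp only [Matrix.vecMul, dotProduct, LB, Fintype.sum_sum_type, Fin.sum_univ_two] at this
  simpa using this

theorem inj_of_pl {ι : Type} {k : ℕ} {M : Matrix ι (Fin k) ℝ} (h : ∃ i, pl M i ≠ 0)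
    {c : Fin k → ℝ} (hc : M *ᵥ c = 0) : c = 0 := by
  obtain ⟨i, hi⟩ := h
  refine Matrix.eq_zero_of_mulVec_eq_zero hi ?_
  funext r
  exact congrFun hc (i r)

theorem pl_ne_of_ne {ι : Type} {k : ℕ} {M : Matrix ι (Fin k) ℝ} (h : pl M ≠ 0) :
    ∃ i, pl M i ≠ 0 := Function.ne_iff.1 h

/-- `QB` on `ker L` -/
theorem QB_ker {d : ℕ} (B : Matrix (Fin d) (Fin d) ℝ) (u u' : I3 d → ℝ) (h : u (Sum.inr 0) = 0)
    (h' : u' (Sum.inr 0) = 0) :
    u ⬝ᵥ QB B *ᵥ u' = (fun i => u (Sum.inl i)) ⬝ᵥ B *ᵥ fun i => u' (Sum.inl i) := by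
  unfold QB
  simp only [dotProduct, Matrix.mulVec, Fintype.sum_sum_type, Fin.sum_univ_two,
    Matrix.fromBlocks_apply₁₁, Matrix.fromBlocks_apply₁₂, Matrix.fromBlocks_apply₂₁,
    Matrix.fromBlocks_apply₂₂, h, h', Matrix.zero_apply]
  simp

theorem lemD {d : ℕ} (hd : 2 ≤ d) {B : Matrix (Fin d) (Fin d) ℝ} (hB : GoodB d B) {k : ℕ}
    (hk : k + 1 < d + 2) (M : Matrix (I3 d) (Fin (k + 1)) ℝ) (hM : PlFix B M) :
    (∃ M0 : Matrix (I3 d) (Fin k) ℝ, NdegB B M0 M) ∨
      (d = 2 ∧ (∀ i j, B i j = if i = j then 0 else 1) ∧ k + 1 = 2 ∧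
        ∃ i0 : Fin d, ∀ j, j ≠ Sum.inl i0 → j ≠ Sum.inr 1 → ∀ c, M j c = 0) := by
  have hBOK := bok hd hB
  have hs := hBOK.symm
  obtain ⟨hL, ⟨a, ha⟩, -⟩ := planeB d hd B hB (k + 1) (Nat.succ_pos k) hk M hM
  have ha0 : a ≠ 0 := by
    rintro rfl
    rw [Matrix.mulVec_zero] at ha
    have := congrFun ha (Sum.inr 1)
    simp at this
  obtain ⟨j0, hj0⟩ := Function.ne_iff.1 ha0
  rw [Pi.zero_apply] at hj0
  set κ : Matrix (Fin (k + 1)) (Fin (k + 1)) ℝ :=
    ((1 : Matrix (Fin (k + 1)) (Fin (k + 1)) ℝ).updateCol j0 a).submatrix id (Equiv.swap 0 j0)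
    with hκdef
  have hκ : κ.det ≠ 0 := by
    have h1 : ((1 : Matrix (Fin (k + 1)) (Fin (k + 1)) ℝ).updateCol j0 a).det = a j0 := by
      rw [← Matrix.cramer_apply, Matrix.cramer_one]
      rfl
    rw [hκdef, Matrix.det_permute', h1]
    refine mul_ne_zero ?_ hj0
    rcases Int.units_eq_one_or (Equiv.Perm.sign (Equiv.swap (0 : Fin (k + 1)) j0)) with h | h <;>
      rw [h] <;> simp
  have hκ0 : ∀ c, κ c 0 = a c := by
    intro c
    simp [hκdef, Matrix.updateCol_self]
  have hcol0 : ∀ i, (M * κ) i 0 = (Pi.single (Sum.inr 1) 1 : I3 d → ℝ) i := by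
    intro i
    rw [← ha, Matrix.mul_apply]
    simp only [hκ0]
    rfl
  have hplne : ∃ i, pl (M * κ) i ≠ 0 := by
    obtain ⟨i, hi⟩ := hM.1
    refine ⟨i, ?_⟩
    rw [pl_mul_right, Pi.smul_apply, smul_eq_mul]
    exact mul_ne_zero hκ hi
  set M0 : Matrix (I3 d) (Fin k) ℝ := fun i j' => (M * κ) i j'.succ with hM0
  have hN : M * κ = fun i j => Fin.cases ((Pi.single (Sum.inr 1) 1 : I3 d → ℝ) i)
      (fun j' => M0 i j') j := by
    ext i j
    refine Fin.cases ?_ ?_ j
    · exact hcol0 i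
    · intro j'
      rfl
  by_cases hdet : (M0ᵀ * QB B * M0).det = 0
  swap
  · exact Or.inl ⟨M0, ⟨κ, hκ, hN⟩, hdet⟩
  right
  have hL' : LB d ᵥ* (M * κ) = 0 := by
    rw [← Matrix.vecMul_vecMul, hL, Matrix.zero_vecMul]
  have hs0 : ∀ c, M0 (Sum.inr 0) c = 0 := fun c => row_s hL' c.succ
  obtain ⟨v, hv, hv0⟩ := Matrix.exists_mulVec_eq_zero_iff.2 hdet
  set y : Fin d → ℝ := fun i => (M0 *ᵥ v) (Sum.inl i) with hy
  have hMs : (M0 *ᵥ v) (Sum.inr 0) = 0 := by
    simp only [Matrix.mulVec, dotProduct, hs0, zero_mul, Finset.sum_const_zero]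
  have hy0 : y ≠ 0 := by
    intro h0
    have h1 : (M * κ) *ᵥ (Fin.cons (-(M0 *ᵥ v) (Sum.inr 1)) v : Fin (k + 1) → ℝ) = 0 := by
      funext i
      have h2 : ((M * κ) *ᵥ (Fin.cons (-(M0 *ᵥ v) (Sum.inr 1)) v : Fin (k + 1) → ℝ)) i =
          (Pi.single (Sum.inr 1) 1 : I3 d → ℝ) i * (-(M0 *ᵥ v) (Sum.inr 1)) + (M0 *ᵥ v) i := by
        rw [← hcol0 i]
        simp only [Matrix.mulVec, dotProduct, Fin.sum_univ_succ, Fin.cons_zero, Fin.cons_succ]
        rfl
      rw [h2]
      rcases i with i | i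
      · have := congrFun h0 i
        simp only [hy, Pi.zero_apply] at this
        rw [this]
        simp
      · fin_cases i
        · simp only [Fin.zero_eta]
          rw [hMs]
          simp
        · simp
    have h3 := inj_of_pl hplne h1
    apply hv
    funext c
    have := congrFun h3 c.succ
    simpa using this
  have hgram : ∀ c, (fun i => M0 (Sum.inl i) c) ⬝ᵥ B *ᵥ y = 0 := by
    intro c
    have h1 := congrFun hv0 c
    have h2 : ((M0ᵀ * QB B * M0) *ᵥ v) c = (fun r => M0 r c) ⬝ᵥ QB B *ᵥ (M0 *ᵥ v) := by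
      rw [← Matrix.mulVec_mulVec, ← Matrix.mulVec_mulVec]
      rfl
    rw [h2, QB_ker B _ _ (hs0 c) hMs] at h1
    exact h1
  have hyy : y ⬝ᵥ B *ᵥ y = 0 := by
    have h1 : y = ∑ c, v c • fun i => M0 (Sum.inl i) c := by
      funext i
      simp only [hy, Matrix.mulVec, dotProduct, Finset.sum_apply, Pi.smul_apply, smul_eq_mul]
      exact Finset.sum_congr rfl fun c _ => mul_comm _ _
    conv_lhs => rw [h1]
    rw [sum_dotProduct]
    refine Finset.sum_eq_zero fun c _ => ?_
    rw [← h1, smul_dotProduct, hgram, smul_zero]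
  rcases hB with rfl | ⟨rfl, hBs⟩
  · exfalso
    apply hy0
    rw [Matrix.one_mulVec] at hyy
    exact dotProduct_self_eq_zero.1 hyy
  have hBy : ∀ u : Fin 2 → ℝ, u ⬝ᵥ B *ᵥ y = u 0 * y 1 + u 1 * y 0 := by
    intro u
    simp only [dotProduct, Matrix.mulVec, Fin.sum_univ_two, hBs]
    simp
  refine ⟨rfl, hBs, ?_⟩
  obtain ⟨i0, hi0⟩ : ∃ i0 : Fin 2, ∀ i, i ≠ i0 → ∀ c, M0 (Sum.inl i) c = 0 := by
    rw [hBy] at hyy
    by_cases h0 : y 0 = 0
    · have h1 : y 1 ≠ 0 := by
        intro h1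
        apply hy0
        funext i
        fin_cases i
        · exact h0
        · exact h1
      refine ⟨1, fun i hi c => ?_⟩
      have hi' : i = 0 := by
        fin_cases i
        · rfl
        · exact absurd rfl hi
      subst hi'
      have h2 := hgram c
      rw [hBy, h0, mul_zero, add_zero] at h2
      rcases mul_eq_zero.1 h2 with h3 | h3
      · exact h3
      · exact absurd h3 h1
    · have h1 : y 1 = 0 := by
        have h3 : 2 * (y 0 * y 1) = 0 := by linarith
        rcases mul_eq_zero.1 h3 with h4 | h4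
        · norm_num at h4
        · rcases mul_eq_zero.1 h4 with h5 | h5
          · exact absurd h5 h0
          · exact h5
      refine ⟨0, fun i hi c => ?_⟩
      have hi' : i = 1 := by
        fin_cases i
        · exact absurd rfl hi
        · rfl
      subst hi'
      have h2 := hgram c
      rw [hBy, h1, mul_zero, zero_add] at h2
      rcases mul_eq_zero.1 h2 with h3 | h3
      · exact h3
      · exact absurd h3 h0
  have hrows : ∀ j, j ≠ Sum.inl i0 → j ≠ Sum.inr 1 → ∀ c, M j c = 0 := by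
    intro j hj1 hj2 c
    have h1 : ∀ c, (M * κ) j c = 0 := by
      intro c
      refine Fin.cases ?_ ?_ c
      · rw [hcol0, Pi.single_eq_of_ne hj2]
      · intro c'
        rcases j with j | j
        · exact hi0 j (fun h => hj1 (by rw [h])) c'
        · fin_cases j
          · exact hs0 c'
          · exact absurd rfl hj2
    have h2 : M = (M * κ) * κ⁻¹ := by
      rw [Matrix.mul_assoc, Matrix.mul_nonsing_inv _ (Ne.isUnit hκ), Matrix.mul_one]
    rw [h2, Matrix.mul_apply]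
    exact Finset.sum_eq_zero fun c' _ => by rw [h1, zero_mul]
  refine ⟨?_, i0, hrows⟩
  -- `k = 1`
  have hkpos : 0 < k := by
    rcases Nat.eq_zero_or_pos k with rfl | h
    · exfalso
      apply hv
      funext c
      exact c.elim0
    · exact h
  have hle : k + 1 ≤ 2 := by
    obtain ⟨i, hi⟩ := hM.1
    have hmem : ∀ r, i r ∈ ({Sum.inl i0, Sum.inr 1} : Finset (I3 2)) := by
      intro r
      by_contra hcon
      rw [Finset.mem_insert, Finset.mem_singleton, not_or] at hcon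
      apply hi
      exact Matrix.det_eq_zero_of_row_eq_zero r fun c => hrows _ hcon.1 hcon.2 c
    have hinj : Function.Injective i := by
      intro r r' hrr
      by_contra hne
      apply hi
      exact Matrix.det_zero_of_row_eq hne (by funext c; simp [Matrix.submatrix_apply, hrr])
    have h1 : (Finset.univ : Finset (Fin (k + 1))).card ≤
        ({Sum.inl i0, Sum.inr 1} : Finset (I3 2)).card :=
      Finset.card_le_card_of_injOn i (fun r _ => hmem r) (hinj.injOn)
    rw [Finset.card_univ, Fintype.card_fin] at h1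
    exact h1.trans (Finset.card_le_two)
  omega

end H9

open H9 in
theorem trichB : trichBStatement := by
  intro d hd B hB x hx
  by_cases h1 : ∀ k : ℕ, 0 < k → k < d + 2 → ∀ A : Matrix (I3 d) (Fin k) ℤ, ¬ PlFix B (x * im A)
  · exact Or.inl h1
  right
  by_cases h2 : ∃ k : ℕ, k + 1 < d + 2 ∧ ∃ A : Matrix (I3 d) (Fin (k+1)) ℤ, PlFix B (x * im A) ∧
      ∃ M0 : Matrix (I3 d) (Fin k) ℝ, NdegB B M0 (x * im A)
  · exact Or.inl h2
  right
  have hs := (bok hd hB).symm
  -- each fixed vector is degenerate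
  have key : ∀ k : ℕ, 0 < k → k < d + 2 → ∀ A : Matrix (I3 d) (Fin k) ℤ, PlFix B (x * im A) →
      (d = 2 ∧ (∀ i j, B i j = if i = j then 0 else 1) ∧ k = 2 ∧
        ∃ i0 : Fin d, ∀ j, j ≠ Sum.inl i0 → j ≠ Sum.inr 1 → ∀ c, (x * im A) j c = 0) := by
    intro k hk0 hk A hA
    obtain ⟨k', rfl⟩ : ∃ k', k = k' + 1 := ⟨k - 1, by omega⟩
    rcases lemD hd hB hk (x * im A) hA with ⟨M0, hM0⟩ | h
    · exact absurd ⟨k', hk, A, hA, M0, hM0⟩ h2
    · exact h
  push Not at h1
  obtain ⟨k, hk0, hk, A, hA⟩ := h1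
  obtain ⟨hd2, hBs, hk2, i0, hi0⟩ := key k hk0 hk A hA
  subst hd2
  subst hk2
  refine ⟨rfl, hBs, i0, fun k' hk0' hk' A' hA' => ?_⟩
  obtain ⟨-, -, hk2', i1, hi1⟩ := key k' hk0' hk' A' hA'
  subst hk2'
  refine ⟨rfl, ?_⟩
  by_cases hii : i1 = i0
  · subst hii
    exact hi1
  exfalso
  obtain ⟨-, ⟨a, ha⟩, -⟩ := planeB 2 hd B hB 2 hk0 hk (x * im A) hA
  obtain ⟨-, ⟨a', ha'⟩, -⟩ := planeB 2 hd B hB 2 hk0' hk' (x * im A') hA'
  have ha0 : a ≠ 0 := by
    rintro rfl
    rw [Matrix.mulVec_zero] at ha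
    have := congrFun ha (Sum.inr 1)
    simp at this
  set C : Matrix (I3 2) (Fin 2 ⊕ Fin 2) ℤ := Matrix.fromCols A (-A') with hC
  have hxinj : ∀ u : I3 2 → ℝ, x *ᵥ u = 0 → u = 0 := fun u hu =>
    Matrix.eq_zero_of_mulVec_eq_zero (by rw [hx]; exact one_ne_zero) hu
  have hCr : ∀ p p' : Fin 2 → ℝ, im C *ᵥ Sum.elim p p' = im A *ᵥ p - im A' *ᵥ p' := by
    intro p p'
    funext i
    simp only [Matrix.mulVec, dotProduct, Fintype.sum_sum_type, im, hC, Sum.elim_inl, Sum.elim_inr,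
      Matrix.fromCols_apply_inl, Matrix.fromCols_apply_inr, Matrix.neg_apply, Pi.sub_apply]
    push_cast
    simp only [neg_mul, Finset.sum_neg_distrib]
    ring
  have hCker : im C *ᵥ Sum.elim a a' = 0 := by
    rw [hCr]
    apply hxinj
    rw [Matrix.mulVec_sub, Matrix.mulVec_mulVec, Matrix.mulVec_mulVec, ha, ha', sub_self]
  have hdetR : (im C).det = 0 := by
    by_contra hne
    have := Matrix.eq_zero_of_mulVec_eq_zero hne hCker
    apply ha0
    funext i
    exact congrFun this (Sum.inl i)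
  have hdetZ : Matrix.det C = 0 := by
    have h3 : (im C).det = ((Matrix.det C : ℤ) : ℝ) := by
      have : im C = (Int.castRingHom ℝ).mapMatrix C := rfl
      rw [this, ← RingHom.map_det]
      rfl
    rw [h3] at hdetR
    exact_mod_cast hdetR
  obtain ⟨p, hp0, hp⟩ := Matrix.exists_mulVec_eq_zero_iff.2 hdetZ
  set p1 : Fin 2 → ℤ := fun i => p (Sum.inl i) with hp1
  set p2 : Fin 2 → ℤ := fun i => p (Sum.inr i) with hp2
  have hpR : im A *ᵥ (fun i => (p1 i : ℝ)) = im A' *ᵥ (fun i => (p2 i : ℝ)) := by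
    have h3 : im C *ᵥ Sum.elim (fun i => (p1 i : ℝ)) (fun i => (p2 i : ℝ)) = 0 := by
      funext i
      have h4 := congrFun hp i
      have h5 : (im C *ᵥ Sum.elim (fun i => (p1 i : ℝ)) (fun i => (p2 i : ℝ))) i =
          (((C *ᵥ p) i : ℤ) : ℝ) := by
        simp only [Matrix.mulVec, dotProduct, im, Fintype.sum_sum_type, Sum.elim_inl, Sum.elim_inr]
        push_cast
        rfl
      rw [h5, h4]
      simp
    rw [hCr] at h3
    exact sub_eq_zero.1 h3
  set v : I3 2 → ℤ := A *ᵥ p1 with hv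
  have hvR : iv v = im A *ᵥ (fun i => (p1 i : ℝ)) := by
    funext i
    simp only [iv, hv, Matrix.mulVec, dotProduct, im]
    push_cast
    rfl
  have hvne : iv v ≠ 0 := by
    intro h0
    have hAinj : ∀ c, im A *ᵥ c = 0 → c = 0 := by
      intro c hc
      refine inj_of_pl hA.1 ?_
      rw [← Matrix.mulVec_mulVec, hc, Matrix.mulVec_zero]
    have hAinj' : ∀ c, im A' *ᵥ c = 0 → c = 0 := by
      intro c hc
      refine inj_of_pl hA'.1 ?_
      rw [← Matrix.mulVec_mulVec, hc, Matrix.mulVec_zero]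
    rw [hvR] at h0
    have h3 := hAinj _ h0
    rw [hpR] at h0
    have h4 := hAinj' _ h0
    apply hp0
    funext j
    rcases j with j | j
    · have := congrFun h3 j
      simp only [hp1, Pi.zero_apply, Int.cast_eq_zero] at this
      exact this
    · have := congrFun h4 j
      simp only [hp2, Pi.zero_apply, Int.cast_eq_zero] at this
      exact this
  have hxv : ∀ j, j ≠ Sum.inr 1 → (x *ᵥ iv v) j = 0 := by
    intro j hj
    by_cases hj0 : j = Sum.inl i0
    · have hj1 : j ≠ Sum.inl i1 := by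
        rw [hj0]
        intro h
        exact hii (Sum.inl.inj h).symm
      rw [hvR, hpR, Matrix.mulVec_mulVec]
      simp only [Matrix.mulVec, dotProduct]
      exact Finset.sum_eq_zero fun c _ => by rw [hi1 j hj1 hj c, zero_mul]
    · rw [hvR, Matrix.mulVec_mulVec]
      simp only [Matrix.mulVec, dotProduct]
      exact Finset.sum_eq_zero fun c _ => by rw [hi0 j hj0 hj c, zero_mul]
  set lam : ℝ := (x *ᵥ iv v) (Sum.inr 1) with hlam
  have hxv' : x *ᵥ iv v = lam • ez 2 := by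
    funext j
    by_cases hj : j = Sum.inr 1
    · subst hj
      simp [ez, hlam]
    · rw [hxv j hj]
      simp [ez, hj]
  have hlam0 : lam ≠ 0 := by
    intro h0
    rw [h0, zero_smul] at hxv'
    exact hvne (hxinj _ hxv')
  set A'' : Matrix (I3 2) (Fin 1) ℤ := fun i _ => v i with hA''
  have hmul : ∀ c : Fin 1 → ℝ, (x * im A'') *ᵥ c = (c 0) • (lam • ez 2) := by
    intro c
    rw [← hxv', ← Matrix.mulVec_mulVec, ← Matrix.mulVec_smul]
    congr 1
    funext i
    simp [Matrix.mulVec, dotProduct, im, hA'', iv, mul_comm]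
  have hcol : ∀ i, (x * im A'') i 0 = (lam • ez 2) i := by
    intro i
    have h3 := congrFun (hmul (fun _ => 1)) i
    rw [one_smul] at h3
    rw [← h3]
    simp [Matrix.mulVec, dotProduct]
  have hPF : PlFix B (x * im A'') := by
    refine ⟨⟨fun _ => Sum.inr 1, ?_⟩, fun w => ?_⟩
    · simp only [pl]
      rw [Matrix.det_unique, Matrix.submatrix_apply]
      have : (x * im A'') (Sum.inr 1) (id default) = (lam • ez 2) (Sum.inr 1) := hcol _
      rw [this]
      simpa [ez] using hlam0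
    · refine plfix_of hs _ ?_ (fun _ => lam⁻¹) ?_ w
      · funext c
        have hc : c = 0 := Subsingleton.elim _ _
        subst hc
        simp only [Matrix.vecMul, dotProduct, hcol]
        simp [LB, ez, Fintype.sum_sum_type, Fin.sum_univ_two]
      · rw [hmul, smul_smul, inv_mul_cancel₀ hlam0, one_smul]
  obtain ⟨-, -, h12, -⟩ := key 1 one_pos (by norm_num) A'' hPF
  exact absurd h12 (by norm_num)

end QL
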